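import Mathlib

/-!
# Tower project (MP_817449_lc): definitions

* `W` : the elliptic curve `y² = x³ - 3x + 1` over `ℚ`, `P0 = (0, 1)`, `zz n`, `yy n` the coordinates
  of `n • P0`, `dd s n` half the order of the pole of `zz n` at the prime `s`;
* `T5 N F`, `T7 N F` : the two existential tests (norm forms of `ℚ(√5)` and of `ℚ(ζ₇)⁺`);
* `StepT M M'` : the step relation.
-/

set_option autoImplicit false

namespace Pool.Agent.TH716.TW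

open WeierstrassCurve NumberField

/-- `y² = x³ - 3x + 1` -/
def W : WeierstrassCurve ℚ := ⟨0, 0, 0, -3, 1⟩

abbrev Pt : Type := W.toAffine.Point

lemma P0_ns : W.toAffine.Nonsingular 0 1 := by
  rw [WeierstrassCurve.Affine.nonsingular_iff, WeierstrassCurve.Affine.equation_iff]
  simp only [W]
  norm_num

/-- the generator `(0, 1)` -/
def P0 : Pt := .some 0 1 P0_ns

/-- first coordinate (`0` for the point at infinity) -/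
def ptX : Pt → ℚ
  | .zero => 0
  | .some x _ _ => x

/-- second coordinate (`0` for the point at infinity) -/
def ptY : Pt → ℚ
  | .zero => 0
  | .some _ y _ => y

noncomputable def zz (n : ℤ) : ℚ := ptX (n • P0)
noncomputable def yy (n : ℤ) : ℚ := ptY (n • P0)

/-- half the order of the pole of `zz n` at `s` (`0` if there is no pole) -/
noncomputable def dd (s : ℕ) (n : ℤ) : ℕ := (- padicValRat s (zz n) / 2).toNat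

/-- the square root of the denominator of `zz n` -/
noncomputable def DD (n : ℤ) : ℕ := Nat.sqrt (zz n).den

/-- odd primes inert in `ℚ(√5)` -/
def I5 (s : ℕ) : Prop := s.Prime ∧ s ≠ 2 ∧ (s % 5 = 2 ∨ s % 5 = 3)

/-- inert in `ℚ(ζ₇)⁺` -/
def I7 (s : ℕ) : Prop := s.Prime ∧ (s % 7 = 2 ∨ s % 7 = 3 ∨ s % 7 = 4 ∨ s % 7 = 5)

/-- cubic class modulo `7`: the discrete logarithm to the base `3`, modulo `3` -/
def cb (a : ℕ) : ZMod 3 :=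
  if a % 7 = 3 ∨ a % 7 = 4 then 1 else if a % 7 = 2 ∨ a % 7 = 5 then 2 else 0

/-- norm of `x + y θ + w θ²`, where `θ³ + θ² - 2θ - 1 = 0` -/
def nm (x y w : ℚ) : ℚ :=
  x ^ 3 - x ^ 2 * y + 5 * x ^ 2 * w - 2 * x * y ^ 2 - x * y * w + 6 * x * w ^ 2 + y ^ 3 -
    y ^ 2 * w - 2 * y * w ^ 2 + w ^ 3

/-- trace of `x + y θ + w θ²` -/
def tr (x y w : ℚ) : ℚ := 3 * x - y + 5 * w

/-- the test for `ℚ(√5)` -/
def T5 (N F : ℚ) : Prop := ∃ w y u : ℚ, F ^ 2 + N = 5 * w ^ 2 + N * (y ^ 2 - 5 * u ^ 2)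

/-- the test for `ℚ(ζ₇)⁺` -/
def T7 (N F : ℚ) : Prop := ∃ a b c e : ℚ,
  F ^ 2 * (nm a b c + N * e ^ 3 + N ^ 2) + e * tr a b c = 0

def n2 (r : ℚ) : ℚ := r ^ 2 / (r ^ 2 - 5)
def n3 (r : ℚ) : ℚ := r ^ 3 / (r ^ 3 + r ^ 2 - 2 * r - 1)

/-- the step relation -/
def StepT (M M' : ℤ) : Prop :=
  T5 (1 / yy (2 * M)) (n2 (zz (2 * M) / zz (2 * M'))) ∧
    T7 (zz (2 * M)) (n3 (zz (2 * M) / zz (2 * M')))

/-- what the step relation forces -/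
def Nx (M M' : ℤ) : Prop :=
  (∀ s, I5 s → Odd (dd s (2 * M)) → dd s (2 * M) < dd s (2 * M')) ∧
  (∀ s, I7 s → ¬ 3 ∣ dd s (2 * M) → dd s (2 * M) < dd s (2 * M'))

/-- the tower -/
def tow : ℕ → ℕ
  | 0 => 1
  | n + 1 => 2 ^ tow n

/-! ### statements about the curve -/

/-- elementary facts on the group law -/
structure GrpFacts : Prop where
  ne_zero : ∀ n : ℤ, n ≠ 0 → n • P0 ≠ 0
  on : ∀ n : ℤ, n ≠ 0 → yy n ^ 2 = zz n ^ 3 - 3 * zz n + 1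
  y_ne : ∀ n : ℤ, n ≠ 0 → yy n ≠ 0
  neg : ∀ n : ℤ, zz (-n) = zz n ∧ yy (-n) = - yy n
  inj : ∀ m n : ℤ, m ≠ 0 → n ≠ 0 → (zz m = zz n ↔ m = n ∨ m = -n)
  add : ∀ m n : ℤ, m ≠ 0 → n ≠ 0 → zz m ≠ zz n →
    zz (m + n) = ((yy m - yy n) / (zz m - zz n)) ^ 2 - zz m - zz n ∧
    yy (m + n) = -(((yy m - yy n) / (zz m - zz n)) * (zz (m + n) - zz m) + yy m)
  dbl : ∀ n : ℤ, n ≠ 0 →
    zz (2 * n) = ((3 * zz n ^ 2 - 3) / (2 * yy n)) ^ 2 - 2 * zz n ∧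
    yy (2 * n) = -(((3 * zz n ^ 2 - 3) / (2 * yy n)) * (zz (2 * n) - zz n) + yy n)
  one : zz 1 = 0 ∧ yy 1 = 1
  pos : ∀ n : ℤ, n ≠ 0 → 0 < zz (2 * n)

/-- valuations of the coordinates -/
def S_val : Prop := ∀ s : ℕ, s.Prime → ∀ n : ℤ, n ≠ 0 →
  (dd s n = 0 → (zz n = 0 ∨ 0 ≤ padicValRat s (zz n)) ∧ 0 ≤ padicValRat s (yy n)) ∧
  (0 < dd s n → padicValRat s (zz n) = -2 * (dd s n : ℤ) ∧
    padicValRat s (yy n) = -3 * (dd s n : ℤ))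

/-- rank of apparition and the law of repetition -/
def S_rk : Prop := ∀ s : ℕ, s.Prime → ∃ r δ : ℕ, 0 < r ∧ 0 < δ ∧ ∀ n : ℤ, n ≠ 0 →
  dd s n = if (r : ℤ) ∣ n then δ + padicValInt s (n / r) else 0

/-- differences of abscissas (`P0` is nonsingular modulo every prime) -/
def S_diff : Prop := ∀ s : ℕ, s.Prime → ∀ m n : ℤ, m ≠ 0 → n ≠ 0 → m + n ≠ 0 → n - m ≠ 0 →
  padicValRat s (zz n - zz m) =
    (dd s (m + n) : ℤ) + dd s (n - m) - 2 * dd s n - 2 * dd s m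

/-- the denominator -/
def S_den : Prop := ∀ n : ℤ, n ≠ 0 → (zz n).den = DD n ^ 2 ∧
  ∀ s : ℕ, s.Prime → padicValNat s (DD n) = dd s n

/-- the table modulo `5` -/
def S_t5 : Prop := ∀ n : ℤ, n ≠ 0 → ¬ 7 ∣ n →
  jacobiSym (DD n : ℤ) 5 = if n % 7 = 2 ∨ n % 7 = 5 then -1 else 1

/-- the table modulo `7` -/
def S_t7 : Prop := ∀ n : ℤ, n ≠ 0 → ¬ 5 ∣ n →
  ¬ 7 ∣ DD n ∧ cb (DD n) = if n % 5 = 2 ∨ n % 5 = 3 then 2 else 0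

/-- `E(ℚ)/2E(ℚ)` is generated by `P0` -/
def S_halve : Prop := ∀ x y : ℚ, y ^ 2 = x ^ 3 - 3 * x + 1 → x ≠ 0 →
  (∃ u v : ℚ, v ^ 2 = u ^ 3 - 3 * u + 1 ∧ x = (u ^ 4 + 6 * u ^ 2 - 8 * u + 9) / (4 * v ^ 2)) ∨
  (∃ u v : ℚ, v ^ 2 = u ^ 3 - 3 * u + 1 ∧
    ((y - 1) / x) ^ 2 - x = (u ^ 4 + 6 * u ^ 2 - 8 * u + 9) / (4 * v ^ 2))

/-- `E(ℚ) = ℤ P0` -/
def S_gen : Prop := ∀ x y : ℚ, y ^ 2 = x ^ 3 - 3 * x + 1 → ∃ n : ℤ, n ≠ 0 ∧ x = zz n ∧ y = yy n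

/-! ### statements about growth -/

/-- rank and law of repetition, for functions on the positive integers -/
def RkS (d : ℕ → ℕ → ℕ) : Prop := ∀ s : ℕ, s.Prime → ∃ r δ : ℕ, 0 < r ∧ 0 < δ ∧
  ∀ n : ℕ, 0 < n → d s n = if r ∣ n then δ + padicValNat s (n / r) else 0

/-- from primes inert in `ℚ(ζ₇)⁺` to primes inert in `ℚ(√5)` -/
def S_GA : Prop := ∀ (D : ℕ → ℕ) (d : ℕ → ℕ → ℕ), RkS d →
  (∀ n : ℕ, 0 < n → D n ≠ 0 ∧ ∀ s : ℕ, s.Prime → padicValNat s (D n) = d s n) →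
  (∀ n : ℕ, 0 < n → ¬ 7 ∣ n → jacobiSym (D n : ℤ) 5 = if n % 7 = 2 ∨ n % 7 = 5 then -1 else 1) →
  ∀ m : ℕ, 0 < m → Even m → ∀ A U : Finset ℕ, (∀ l ∈ A, I7 l ∧ l ≠ 2 ∧ l ∣ m) →
  (∀ s, I5 s → Odd (d s m) → s ∈ U) → 2 ^ A.card ≤ U.card + 2 * A.card + 3

/-- from primes inert in `ℚ(√5)` to primes inert in `ℚ(ζ₇)⁺` -/
def S_GB : Prop := ∀ (D : ℕ → ℕ) (d : ℕ → ℕ → ℕ), RkS d →
  (∀ n : ℕ, 0 < n → D n ≠ 0 ∧ ∀ s : ℕ, s.Prime → padicValNat s (D n) = d s n) →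
  (∀ n : ℕ, 0 < n → ¬ 5 ∣ n → ¬ 7 ∣ D n ∧ cb (D n) = if n % 5 = 2 ∨ n % 5 = 3 then 2 else 0) →
  ∀ m : ℕ, 0 < m → ∀ A U : Finset ℕ, (∀ l ∈ A, I5 l ∧ l ∣ m) →
  (∀ s, I7 s → ¬ 3 ∣ d s m → s ∈ U) → 2 ^ A.card ≤ U.card + 2 * A.card + 2

/-! ### statements about the tests -/

def S_T5s : Prop := ∀ N F : ℚ, N ≠ 0 → T5 N F → ∀ s, I5 s → Odd (padicValRat s N) →
  F = 0 ∨ padicValRat s N < 2 * padicValRat s F

def S_T5c : Prop := ∀ N F : ℚ, N ≠ 0 → F ≠ 0 →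
  (∀ s : ℕ, s.Prime → (s % 5 = 2 ∨ s % 5 = 3) → Odd (padicValRat s N) →
    padicValRat s N < 2 * padicValRat s F) →
  padicValRat 5 N < 2 * padicValRat 5 F → T5 N F

def S_T7s : Prop := ∀ N F : ℚ, N ≠ 0 → T7 N F → ∀ s, I7 s → ¬ 3 ∣ padicValRat s N →
  F = 0 ∨ - padicValRat s N < 2 * padicValRat s F

def S_T7c : Prop := ∀ N F : ℚ, 0 < N → F ≠ 0 →
  (∀ s, I7 s → ¬ 3 ∣ padicValRat s N →
    |padicValRat s N| - 3 * padicValRat s N ≤ 6 * padicValRat s F) →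
  |padicValRat 7 N - 3| < 3 * padicValRat 7 N + 6 * padicValRat 7 F → T7 N F

/-- choice of the parameter of the cubic test -/
def S_choose : Prop := ∀ N F : ℚ, 0 < N → F ≠ 0 →
  (∀ s, I7 s → ¬ 3 ∣ padicValRat s N →
    |padicValRat s N| - 3 * padicValRat s N ≤ 6 * padicValRat s F) →
  |padicValRat 7 N - 3| < 3 * padicValRat 7 N + 6 * padicValRat 7 F →
  ∃ e : ℚ, e ≠ 0 ∧ (N * e ^ 3 + N ^ 2) ^ 2 < 4 * (- e / F ^ 2) ^ 3 ∧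
    Odd (padicValRat 7 ((N * e ^ 3 + N ^ 2) ^ 2 - 4 * (- e / F ^ 2) ^ 3)) ∧
    ∀ p, I7 p → N * e ^ 3 + N ^ 2 = 0 ∨ 3 ∣ padicValRat p (N * e ^ 3 + N ^ 2) ∨
      3 * padicValRat p (- e / F ^ 2) ≤ 2 * padicValRat p (N * e ^ 3 + N ^ 2)

/-- rational points on the cubic surfaces -/
def S_surf : Prop := ∀ S μ : ℚ, μ ≠ 0 → S ^ 2 < 4 * μ ^ 3 → Odd (padicValRat 7 (S ^ 2 - 4 * μ ^ 3)) →
  (∀ p, I7 p → S = 0 ∨ 3 ∣ padicValRat p S ∨ 3 * padicValRat p μ ≤ 2 * padicValRat p S) →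
  ∃ a b c : ℚ, nm a b c - μ * tr a b c + S = 0

/-! ### the step -/

def S_sound : Prop := ∀ M M' : ℤ, M ≠ 0 → M' ≠ 0 → StepT M M' → Nx M M'

def S_exist : Prop := ∀ M : ℤ, M ≠ 0 → ∃ M' : ℤ, M' ≠ 0 ∧ StepT M M'

/-! ### the norm theorem -/

open scoped nonZeroDivisors

/-- `K` is an imaginary quadratic field in which `7` ramifies, `M = K(θ)` with
`θ³ + θ² - 2θ - 1 = 0`, of degree `3` over `K` -/
structure Sit (K M : Type) [Field K] [NumberField K] [Field M] [NumberField M] [Algebra K M]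
    (θ : 𝓞 M) : Prop where
  two : Module.finrank ℚ K = 2
  three : Module.finrank K M = 3
  cx : IsEmpty (K →+* ℝ)
  ram : ∃ p : Ideal (𝓞 K), p ^ 2 = Ideal.span {7}
  eq : θ ^ 3 + θ ^ 2 - 2 * θ - 1 = 0

/-- the norm theorem -/
def S_HNT : Prop := ∀ (K M : Type) [Field K] [NumberField K] [Field M] [NumberField M]
  [Algebra K M] (θ : 𝓞 M), Sit K M θ → ∀ m : K, m ≠ 0 →
  (∀ v : IsDedekindDomain.HeightOneSpectrum (𝓞 K),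
    ¬ (Ideal.absNorm v.asIdeal % 7 = 0 ∨ Ideal.absNorm v.asIdeal % 7 = 1 ∨
      Ideal.absNorm v.asIdeal % 7 = 6) →
    (3 : ℤ) ∣ FractionalIdeal.count K v (FractionalIdeal.spanSingleton (𝓞 K)⁰ m)) →
  ∃ x : M, Algebra.norm K x = m

/-- the same for integers, in terms of ideals: the ideal `(m)` is a norm -/
def S_idnorm : Prop := ∀ (K M : Type) [Field K] [NumberField K] [Field M] [NumberField M]
  [Algebra K M] (θ : 𝓞 M), Sit K M θ → ∀ I : Ideal (𝓞 K), I ≠ ⊥ →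
  (∀ v : IsDedekindDomain.HeightOneSpectrum (𝓞 K),
    ¬ (Ideal.absNorm v.asIdeal % 7 = 0 ∨ Ideal.absNorm v.asIdeal % 7 = 1 ∨
      Ideal.absNorm v.asIdeal % 7 = 6) →
    3 ∣ (Associates.mk v.asIdeal).count (Associates.mk I).factors) →
  ∃ J : Ideal (𝓞 M), J ≠ ⊥ ∧ Ideal.relNorm (𝓞 K) J = I

/-- the nontrivial automorphism -/
def Aut3 (K M : Type) [Field K] [NumberField K] [Field M] [NumberField M] [Algebra K M]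
    (θ : 𝓞 M) (σ : 𝓞 M ≃ₐ[𝓞 K] 𝓞 M) : Prop := σ θ = θ ^ 2 - 2

/-- existence of the automorphism, and the norm in terms of it -/
def S_aut : Prop := ∀ (K M : Type) [Field K] [NumberField K] [Field M] [NumberField M]
  [Algebra K M] (θ : 𝓞 M), Sit K M θ →
  ∃ (τ : M ≃ₐ[K] M) (σ : 𝓞 M ≃ₐ[𝓞 K] 𝓞 M), (∀ x : 𝓞 M, ((σ x : 𝓞 M) : M) = τ x) ∧
    Aut3 K M θ σ ∧ (∀ x, τ (τ (τ x)) = x) ∧
    ∀ x : M, algebraMap K M (Algebra.norm K x) = x * τ x * τ (τ x)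

/-- invariant ideal classes come from `K` -/
def S_amb : Prop := ∀ (K M : Type) [Field K] [NumberField K] [Field M] [NumberField M]
  [Algebra K M] (θ : 𝓞 M), Sit K M θ → ∀ σ : 𝓞 M ≃ₐ[𝓞 K] 𝓞 M, Aut3 K M θ σ →
  ∀ C : Ideal (𝓞 M), C ≠ ⊥ → ∀ x y : 𝓞 M, x ≠ 0 → y ≠ 0 →
  Ideal.span {x} * C = Ideal.span {y} * C.map (σ : 𝓞 M →+* 𝓞 M) →
  ∃ (D : Ideal (𝓞 K)) (u w : 𝓞 M), D ≠ ⊥ ∧ u ≠ 0 ∧ w ≠ 0 ∧
    Ideal.span {u} * C = Ideal.span {w} * D.map (algebraMap (𝓞 K) (𝓞 M))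

/-- the norm is surjective on ideal classes -/
def S_surj : Prop := ∀ (K M : Type) [Field K] [NumberField K] [Field M] [NumberField M]
  [Algebra K M] (θ : 𝓞 M), Sit K M θ → ∀ D : Ideal (𝓞 K), D ≠ ⊥ →
  ∃ (C : Ideal (𝓞 M)) (x y : 𝓞 K), C ≠ ⊥ ∧ x ≠ 0 ∧ y ≠ 0 ∧
    Ideal.span {x} * D = Ideal.span {y} * Ideal.relNorm (𝓞 K) C

/-- principal genus theorem -/
def S_genus : Prop := ∀ (K M : Type) [Field K] [NumberField K] [Field M] [NumberField M]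
  [Algebra K M] (θ : 𝓞 M), Sit K M θ → ∀ σ : 𝓞 M ≃ₐ[𝓞 K] 𝓞 M, Aut3 K M θ σ →
  ∀ (A : Ideal (𝓞 M)) (m : 𝓞 K), m ≠ 0 → Ideal.relNorm (𝓞 K) A = Ideal.span {m} →
  ∃ (B : Ideal (𝓞 M)) (x y : 𝓞 M), B ≠ ⊥ ∧ x ≠ 0 ∧ y ≠ 0 ∧
    Ideal.span {x} * A * B.map (σ : 𝓞 M →+* 𝓞 M) = Ideal.span {y} * B

/-! ### analytic statements -/

/-- the sum of `ψ([I]) χ(N I) N(I)^(-s)` over the nonzero ideals -/
noncomputable def LL (K : Type) [Field K] [NumberField K] (q : ℕ)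
    (χ : DirichletCharacter ℂ q) (ψ : ClassGroup (𝓞 K) →* ℂ) (s : ℝ) : ℂ :=
  ∑' I : {I : Ideal (𝓞 K) // I ≠ ⊥}, ψ (ClassGroup.mk0 ⟨I.1, mem_nonZeroDivisors_of_ne_zero I.2⟩) *
    χ ((Ideal.absNorm I.1 : ℕ) : ZMod q) * ((Ideal.absNorm I.1 : ℝ) ^ (-s) : ℝ)

/-- boundedness of `LL` near `s = 1` -/
def S_bdd : Prop := ∀ (K : Type) [Field K] [NumberField K] (q : ℕ) [NeZero q]
  (χ : DirichletCharacter ℂ q) (ψ : ClassGroup (𝓞 K) →* ℂ), χ (-1) = 1 → ψ ≠ 1 →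
  (χ = 1 ∧ q = 1 ∨ ∃ u : ℕ, u.Coprime q ∧ χ (u : ZMod q) ^ Module.finrank ℚ K ≠ 1) →
  ∃ C : ℝ, ∀ s : ℝ, 1 < s → s ≤ 2 → ‖LL K q χ ψ s‖ ≤ C

/-- the Euler product: a lower bound -/
def S_euler : Prop := ∀ (K : Type) [Field K] [NumberField K], ∃ c : ℝ, 0 < c ∧
  ∀ (f : Ideal (𝓞 K) → ℂ), (∀ I J, f (I * J) = f I * f J) → f ⊤ = 1 → (∀ I, ‖f I‖ ≤ 1) →
  ∀ s : ℝ, 1 < s → s ≤ 2 →
  c * Real.exp (∑' v : IsDedekindDomain.HeightOneSpectrum (𝓞 K),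
      (f v.asIdeal).re * (Ideal.absNorm v.asIdeal : ℝ) ^ (-s)) ≤
    ‖∑' I : {I : Ideal (𝓞 K) // I ≠ ⊥}, f I.1 * ((Ideal.absNorm I.1 : ℝ) ^ (-s) : ℝ)‖

/-- many primes of norm `±1` modulo `7` -/
def S_many : Prop := ∀ (K : Type) [Field K] [NumberField K], Module.finrank ℚ K = 2 →
  ∀ B : ℝ, ∃ s₀ : ℝ, 1 < s₀ ∧ ∀ s : ℝ, 1 < s → s ≤ s₀ →
  B ≤ ∑' v : IsDedekindDomain.HeightOneSpectrum (𝓞 K),
    (if Ideal.absNorm v.asIdeal % 7 = 1 ∨ Ideal.absNorm v.asIdeal % 7 = 6 then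
      (Ideal.absNorm v.asIdeal : ℝ) ^ (-s) else 0)

end Pool.Agent.TH716.TW
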