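import Pool.Agent.TH716.TW.Grow
import Pool.Agent.H528R2.DioCore
import Pool.Agent.H528R3.PolyQ

/-!
# Tower project: the start relation and the step relation are Diophantine over `ℚ`
-/

set_option autoImplicit false

namespace Pool.Agent.TH716.TW

open Pool.Agent.H528R2 (DioQ)
open Pool.Agent.H528R2.Dio

/-- rational points of the curve -/
def On (x y : ℚ) : Prop := y ^ 2 = x ^ 3 - 3 * x + 1

theorem dq_On {f g : (ℕ → ℚ) → ℚ} (hf : PF f) (hg : PF g) : DQ (fun v => On (f v) (g v)) := by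
  unfold On
  exact DQ.eq (hg.pow 2) (((hf.pow 3).sub ((PF.lit 3).mul hf)).add PF.one)

theorem on_iff (G : GrpFacts) (hg : S_gen) (x y : ℚ) :
    On x y ↔ ∃ n : ℤ, n ≠ 0 ∧ x = zz n ∧ y = yy n := by
  constructor
  · exact hg x y
  · rintro ⟨n, hn, rfl, rfl⟩
    exact G.on n hn

/-- doubling of a point -/
def Dbl (x y x' y' : ℚ) : Prop :=
  ∃ l : ℚ, l * (2 * y) = 3 * x ^ 2 - 3 ∧ x' = l ^ 2 - 2 * x ∧ y' = - (l * (x' - x) + y)

theorem dq_Dbl {f g h k : (ℕ → ℚ) → ℚ} (hf : PF f) (hg : PF g) (hh : PF h) (hk : PF k) :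
    DQ (fun v => Dbl (f v) (g v) (h v) (k v)) := by
  unfold Dbl
  refine DQ.ex ?_
  refine (DQ.eq ((PF.var _).mul ((PF.lit 2).mul hg.shift))
    (((PF.lit 3).mul (hf.shift.pow 2)).sub (PF.lit 3))).and ?_
  refine (DQ.eq hh.shift (((PF.var _).pow 2).sub ((PF.lit 2).mul hf.shift))).and ?_
  exact DQ.eq hk.shift ((((PF.var _).mul (hh.shift.sub hf.shift)).add hg.shift).neg)

theorem dbl_iff (G : GrpFacts) {n : ℤ} (hn : n ≠ 0) (x' y' : ℚ) :
    Dbl (zz n) (yy n) x' y' ↔ x' = zz (2 * n) ∧ y' = yy (2 * n) := by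
  obtain ⟨h1, h2⟩ := G.dbl n hn
  have hy2 : 2 * yy n ≠ 0 := mul_ne_zero two_ne_zero (G.y_ne n hn)
  constructor
  · rintro ⟨l, hl, rfl, rfl⟩
    have : l = (3 * zz n ^ 2 - 3) / (2 * yy n) := (eq_div_iff hy2).2 hl
    rw [← this] at h1 h2
    refine ⟨h1.symm, ?_⟩
    rw [h2, h1]
  · rintro ⟨rfl, rfl⟩
    exact ⟨_, div_mul_cancel₀ _ hy2, h1, h2⟩

/-- the chord formula -/
def Chd (x1 y1 x2 y2 x y : ℚ) : Prop :=
  ∃ l : ℚ, l * (x1 - x2) = y1 - y2 ∧ x = l ^ 2 - x1 - x2 ∧ y = - (l * (x - x1) + y1)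

theorem dq_Chd {f1 g1 f2 g2 f g : (ℕ → ℚ) → ℚ} (hf1 : PF f1) (hg1 : PF g1) (hf2 : PF f2)
    (hg2 : PF g2) (hf : PF f) (hg : PF g) :
    DQ (fun v => Chd (f1 v) (g1 v) (f2 v) (g2 v) (f v) (g v)) := by
  unfold Chd
  refine DQ.ex ?_
  refine (DQ.eq ((PF.var _).mul (hf1.shift.sub hf2.shift)) (hg1.shift.sub hg2.shift)).and ?_
  refine (DQ.eq hf.shift ((((PF.var _).pow 2).sub hf1.shift).sub hf2.shift)).and ?_
  exact DQ.eq hg.shift ((((PF.var _).mul (hf.shift.sub hf1.shift)).add hg1.shift).neg)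

theorem chd_iff (G : GrpFacts) {m n : ℤ} (hm : m ≠ 0) (hn : n ≠ 0) (h : zz m ≠ zz n) (x y : ℚ) :
    Chd (zz m) (yy m) (zz n) (yy n) x y ↔ x = zz (m + n) ∧ y = yy (m + n) := by
  obtain ⟨h1, h2⟩ := G.add m n hm hn h
  have hy2 : zz m - zz n ≠ 0 := sub_ne_zero.2 h
  constructor
  · rintro ⟨l, hl, rfl, rfl⟩
    have : l = (yy m - yy n) / (zz m - zz n) := (eq_div_iff hy2).2 hl
    rw [← this] at h1 h2
    refine ⟨h1.symm, ?_⟩
    rw [h2, h1]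
  · rintro ⟨rfl, rfl⟩
    exact ⟨_, div_mul_cancel₀ _ hy2, h1, h2⟩

/-! ### multiplication by a positive integer -/

/-- multiplication by `k + 1` -/
def MulR : ℕ → ℚ → ℚ → ℚ → ℚ → Prop
  | 0, x, y, x', y' => x' = x ∧ y' = y
  | 1, x, y, x', y' => Dbl x y x' y'
  | (k + 2), x, y, x', y' => ∃ a b : ℚ, MulR (k + 1) x y a b ∧ Chd a b x y x' y'

theorem mulR_iff (G : GrpFacts) (k : ℕ) {n : ℤ} (hn : n ≠ 0) (x' y' : ℚ) :
    MulR k (zz n) (yy n) x' y' ↔ x' = zz ((k + 1 : ℕ) * n) ∧ y' = yy ((k + 1 : ℕ) * n) := by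
  induction k using Nat.strong_induction_on generalizing x' y' with
  | _ k ih =>
    match k, ih with
    | 0, _ => simp [MulR]
    | 1, _ =>
      simp only [MulR]
      rw [dbl_iff G hn]
      norm_num
    | (k + 2), ih =>
      have h1 : ((k + 1 + 1 : ℕ) : ℤ) * n ≠ 0 := mul_ne_zero (by positivity) hn
      have hne : zz (((k + 1 + 1 : ℕ) : ℤ) * n) ≠ zz n := by
        rw [Ne, G.inj _ _ h1 hn]
        rintro (h | h)
        · have h2 : (((k + 1 : ℕ) : ℤ)) * n = 0 := by push_cast at h ⊢; linarith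
          exact mul_ne_zero (by positivity) hn h2
        · have h2 : (((k + 3 : ℕ) : ℤ)) * n = 0 := by push_cast at h ⊢; linarith
          exact mul_ne_zero (by positivity) hn h2
      have e : ((k + 1 + 1 : ℕ) : ℤ) * n + n = ((k + 2 + 1 : ℕ) : ℤ) * n := by push_cast; ring
      simp only [MulR]
      constructor
      · rintro ⟨a, b, h, h'⟩
        obtain ⟨rfl, rfl⟩ := (ih (k + 1) (by omega) a b).1 h
        have := (chd_iff G h1 hn hne _ _).1 h'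
        rwa [e] at this
      · rintro ⟨rfl, rfl⟩
        refine ⟨_, _, (ih (k + 1) (by omega) _ _).2 ⟨rfl, rfl⟩, ?_⟩
        rw [chd_iff G h1 hn hne, e]
        exact ⟨rfl, rfl⟩

theorem dq_MulR (k : ℕ) : ∀ {f g h l : (ℕ → ℚ) → ℚ}, PF f → PF g → PF h → PF l →
    DQ (fun v => MulR k (f v) (g v) (h v) (l v)) := by
  induction k using Nat.strong_induction_on with
  | _ k ih =>
    match k, ih with
    | 0, _ =>
      intro f g h l hf hg hh hl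
      exact (DQ.eq hh hf).and (DQ.eq hl hg)
    | 1, _ =>
      intro f g h l hf hg hh hl
      exact dq_Dbl hf hg hh hl
    | (k + 2), ih =>
      intro f g h l hf hg hh hl
      refine DQ.ex (DQ.ex ?_)
      exact (ih (k + 1) (by omega) hf.shift.shift hg.shift.shift (PF.var _) (PF.var _)).and
        (dq_Chd (PF.var _) (PF.var _) hf.shift.shift hg.shift.shift hh.shift.shift hl.shift.shift)

/-- multiplication by the elements of a list -/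
def MulL : List ℕ → ℚ → ℚ → ℚ → ℚ → Prop
  | [], x, y, x', y' => x' = x ∧ y' = y
  | (p :: ps), x, y, x', y' => ∃ a b : ℚ, MulR (p - 1) x y a b ∧ MulL ps a b x' y'

theorem mulL_iff (G : GrpFacts) (ps : List ℕ) (hp : ∀ p ∈ ps, 0 < p) {n : ℤ} (hn : n ≠ 0)
    (x' y' : ℚ) :
    MulL ps (zz n) (yy n) x' y' ↔ x' = zz ((ps.prod : ℕ) * n) ∧ y' = yy ((ps.prod : ℕ) * n) := by
  induction ps generalizing n with
  | nil => simp [MulL]
  | cons p ps ih =>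
    have hp0 : 0 < p := hp p (by simp)
    have hp1 : p - 1 + 1 = p := by omega
    have hpn : (p : ℤ) * n ≠ 0 := mul_ne_zero (by positivity) hn
    have ih := ih (fun q hq => hp q (by simp [hq])) hpn
    have e : ((ps.prod : ℕ) : ℤ) * ((p : ℤ) * n) = (((p :: ps).prod : ℕ) : ℤ) * n := by
      rw [List.prod_cons]; push_cast; ring
    rw [e] at ih
    rw [← ih]
    simp only [MulL]
    constructor
    · rintro ⟨a, b, h, h'⟩
      obtain ⟨rfl, rfl⟩ := (mulR_iff G _ hn a b).1 h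
      rwa [hp1] at h'
    · intro h
      refine ⟨_, _, (mulR_iff G _ hn _ _).2 ⟨rfl, rfl⟩, ?_⟩
      rwa [hp1]

theorem dq_MulL (ps : List ℕ) : ∀ {f g h l : (ℕ → ℚ) → ℚ}, PF f → PF g → PF h → PF l →
    DQ (fun v => MulL ps (f v) (g v) (h v) (l v)) := by
  induction ps with
  | nil =>
    intro f g h l hf hg hh hl
    exact (DQ.eq hh hf).and (DQ.eq hl hg)
  | cons p ps ih =>
    intro f g h l hf hg hh hl
    refine DQ.ex (DQ.ex ?_)
    exact (dq_MulR _ hf.shift.shift hg.shift.shift (PF.var _) (PF.var _)).and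
      (ih (PF.var _) (PF.var _) hh.shift.shift hl.shift.shift)

/-! ### the start -/

/-- the start relation -/
def StR (z y : ℚ) : Prop := ∃ x u : ℚ, On x u ∧ MulL ps0 x u z y

theorem stR_iff (G : GrpFacts) (hg : S_gen) (z y : ℚ) :
    StR z y ↔ ∃ M : ℤ, M ≠ 0 ∧ ((ps0.prod : ℕ) : ℤ) ∣ M ∧ z = zz M ∧ y = yy M := by
  have hpos : ∀ p ∈ ps0, 0 < p := by decide
  have h0 : ((ps0.prod : ℕ) : ℤ) ≠ 0 := by decide
  constructor
  · rintro ⟨x, u, hx, hm⟩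
    obtain ⟨n, hn, rfl, rfl⟩ := (on_iff G hg x u).1 hx
    obtain ⟨rfl, rfl⟩ := (mulL_iff G ps0 hpos hn z y).1 hm
    exact ⟨_, mul_ne_zero h0 hn, dvd_mul_right _ _, rfl, rfl⟩
  · rintro ⟨M, hM, ⟨n, rfl⟩, rfl, rfl⟩
    have hn : n ≠ 0 := right_ne_zero_of_mul hM
    exact ⟨zz n, yy n, (on_iff G hg _ _).2 ⟨n, hn, rfl, rfl⟩,
      (mulL_iff G ps0 hpos hn _ _).2 ⟨rfl, rfl⟩⟩

theorem dio_start : DioQ 2 (fun x => StR (x 0) (x 1)) := by
  refine DQ.dioQ (P := fun x : Fin 2 → ℚ => StR (x 0) (x 1)) ?_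
  refine DQ.ex (DQ.ex ?_)
  refine (dq_On (PF.var _) (PF.var _)).and ?_
  exact dq_MulL ps0 (PF.var _) (PF.var _) (PF.var _) (PF.var _)

/-! ### the tests -/

theorem dq_T5 {f g : (ℕ → ℚ) → ℚ} (hf : PF f) (hg : PF g) : DQ (fun v => T5 (f v) (g v)) := by
  unfold T5
  refine DQ.ex (DQ.ex (DQ.ex ?_))
  exact DQ.eq ((hg.shift.shift.shift.pow 2).add hf.shift.shift.shift)
    (((PF.lit 5).mul ((PF.var _).pow 2)).add (hf.shift.shift.shift.mul
      (((PF.var _).pow 2).sub ((PF.lit 5).mul ((PF.var _).pow 2)))))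

theorem pf_nm {a b c : (ℕ → ℚ) → ℚ} (ha : PF a) (hb : PF b) (hc : PF c) :
    PF (fun v => nm (a v) (b v) (c v)) := by
  unfold nm
  refine PF.add (PF.sub (PF.sub (PF.add (PF.add (PF.sub (PF.sub (PF.add (PF.sub ?_ ?_) ?_) ?_) ?_)
    ?_) ?_) ?_) ?_) ?_
  · exact ha.pow 3
  · exact (ha.pow 2).mul hb
  · exact ((PF.lit 5).mul (ha.pow 2)).mul hc
  · exact ((PF.lit 2).mul ha).mul (hb.pow 2)
  · exact (ha.mul hb).mul hc
  · exact ((PF.lit 6).mul ha).mul (hc.pow 2)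
  · exact hb.pow 3
  · exact (hb.pow 2).mul hc
  · exact ((PF.lit 2).mul hb).mul (hc.pow 2)
  · exact hc.pow 3

theorem pf_tr {a b c : (ℕ → ℚ) → ℚ} (ha : PF a) (hb : PF b) (hc : PF c) :
    PF (fun v => tr (a v) (b v) (c v)) := by
  unfold tr
  exact (((PF.lit 3).mul ha).sub hb).add ((PF.lit 5).mul hc)

theorem dq_T7 {f g : (ℕ → ℚ) → ℚ} (hf : PF f) (hg : PF g) : DQ (fun v => T7 (f v) (g v)) := by
  unfold T7
  refine DQ.ex (DQ.ex (DQ.ex (DQ.ex ?_)))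
  replace hf := hf.shift.shift.shift.shift
  replace hg := hg.shift.shift.shift.shift
  refine DQ.eq ?_ PF.zero
  refine PF.add ((hg.pow 2).mul (((pf_nm (PF.var _) (PF.var _) (PF.var _)).add
    (hf.mul ((PF.var _).pow 3))).add (hf.pow 2))) ?_
  exact (PF.var _).mul (pf_tr (PF.var _) (PF.var _) (PF.var _))

theorem sq_ne_five (x : ℚ) : x ^ 2 - 5 ≠ 0 := by
  intro h
  have h5 : ¬ IsSquare (((5 : ℕ)) : ℚ) := by
    rw [Rat.isSquare_natCast_iff]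
    exact Nat.prime_five.prime.not_isSquare
  apply h5
  refine ⟨x, ?_⟩
  push_cast
  linarith [sq x]

theorem cub_ne (r : ℚ) : r ^ 3 + r ^ 2 - 2 * r - 1 ≠ 0 := by
  intro h
  -- clear denominators
  have hd : (r.den : ℚ) ≠ 0 := by exact_mod_cast r.den_ne_zero
  have hr : r = r.num / r.den := (Rat.num_div_den r).symm
  have h1 : (r.num : ℚ) ^ 3 + (r.num : ℚ) ^ 2 * r.den - 2 * r.num * (r.den : ℚ) ^ 2 -
      (r.den : ℚ) ^ 3 = 0 := by
    rw [hr] at h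
    field_simp at h
    linear_combination h
  have h2 : (r.num : ℤ) ^ 3 + (r.num : ℤ) ^ 2 * r.den - 2 * r.num * (r.den : ℤ) ^ 2 -
      (r.den : ℤ) ^ 3 = 0 := by exact_mod_cast h1
  -- modulo two
  have h3 := congrArg (Int.cast : ℤ → ZMod 2) h2
  push_cast at h3
  have h4 : ∀ a b : ZMod 2, a ^ 3 + a ^ 2 * b - 2 * a * b ^ 2 - b ^ 3 = 0 → a = 0 ∧ b = 0 := by
    decide
  obtain ⟨h5, h6⟩ := h4 _ _ h3
  have h7 : (2 : ℕ) ∣ r.num.natAbs := by
    rw [← Int.natCast_dvd]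
    exact (ZMod.intCast_zmod_eq_zero_iff_dvd _ 2).1 h5
  have h8 : (2 : ℕ) ∣ r.den := by
    exact (ZMod.natCast_eq_zero_iff _ 2).1 h6
  have h9 := Nat.dvd_gcd h7 h8
  rw [r.reduced] at h9
  omega

theorem eq_n2_iff (x y : ℚ) : y = n2 x ↔ y * (x ^ 2 - 5) = x ^ 2 := by
  unfold n2
  exact eq_div_iff (sq_ne_five x)

theorem eq_n3_iff (x y : ℚ) : y = n3 x ↔ y * (x ^ 3 + x ^ 2 - 2 * x - 1) = x ^ 3 := by
  unfold n3
  exact eq_div_iff (cub_ne x)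

/-! ### the step -/

/-- the step relation -/
def StepR (z y z' y' : ℚ) : Prop :=
  On z' y' ∧ ∃ X Y X' Y' i r f g : ℚ, Dbl z y X Y ∧ Dbl z' y' X' Y' ∧ i * Y = 1 ∧ r * X' = X ∧
    f * (r ^ 2 - 5) = r ^ 2 ∧ g * (r ^ 3 + r ^ 2 - 2 * r - 1) = r ^ 3 ∧ T5 i f ∧ T7 X g

theorem stepR_iff (G : GrpFacts) (hg : S_gen) {M : ℤ} (hM : M ≠ 0) (z' y' : ℚ) :
    StepR (zz M) (yy M) z' y' ↔ ∃ M' : ℤ, M' ≠ 0 ∧ z' = zz M' ∧ y' = yy M' ∧ StepT M M' := by
  have h2M : 2 * M ≠ 0 := mul_ne_zero two_ne_zero hM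
  have hy := G.y_ne _ h2M
  constructor
  · rintro ⟨hx, X, Y, X', Y', i, r, f, g, d1, d2, e1, e2, e3, e4, t5, t7⟩
    obtain ⟨n, hn, rfl, rfl⟩ := (on_iff G hg _ _).1 hx
    obtain ⟨rfl, rfl⟩ := (dbl_iff G hM _ _).1 d1
    obtain ⟨rfl, rfl⟩ := (dbl_iff G hn _ _).1 d2
    have hX' := (G.pos n hn).ne'
    have e1' : i = 1 / yy (2 * M) := (eq_div_iff hy).2 e1
    have e2' : r = zz (2 * M) / zz (2 * n) := (eq_div_iff hX').2 e2
    subst e1' e2'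
    have e3' := (eq_n2_iff _ _).2 e3
    have e4' := (eq_n3_iff _ _).2 e4
    subst e3' e4'
    exact ⟨n, hn, rfl, rfl, t5, t7⟩
  · rintro ⟨n, hn, rfl, rfl, t5, t7⟩
    have hX' := (G.pos n hn).ne'
    exact ⟨(on_iff G hg _ _).2 ⟨n, hn, rfl, rfl⟩, _, _, _, _, 1 / yy (2 * M),
      zz (2 * M) / zz (2 * n), _, _, (dbl_iff G hM _ _).2 ⟨rfl, rfl⟩,
      (dbl_iff G hn _ _).2 ⟨rfl, rfl⟩, one_div_mul_cancel hy, div_mul_cancel₀ _ hX',
      (eq_n2_iff _ _).1 rfl, (eq_n3_iff _ _).1 rfl, t5, t7⟩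

theorem dio_step : DioQ 4 (fun x => StepR (x 0) (x 1) (x 2) (x 3)) := by
  refine DQ.dioQ (P := fun x : Fin 4 → ℚ => StepR (x 0) (x 1) (x 2) (x 3)) ?_
  refine (dq_On (PF.var _) (PF.var _)).and ?_
  refine DQ.ex (DQ.ex (DQ.ex (DQ.ex (DQ.ex (DQ.ex (DQ.ex (DQ.ex ?_)))))))
  refine (dq_Dbl (PF.var _) (PF.var _) (PF.var _) (PF.var _)).and ?_
  refine (dq_Dbl (PF.var _) (PF.var _) (PF.var _) (PF.var _)).and ?_
  refine (DQ.eq ((PF.var _).mul (PF.var _)) PF.one).and ?_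
  refine (DQ.eq ((PF.var _).mul (PF.var _)) (PF.var _)).and ?_
  refine (DQ.eq ((PF.var _).mul (((PF.var _).pow 2).sub (PF.lit 5))) ((PF.var _).pow 2)).and ?_
  refine (DQ.eq ((PF.var _).mul (((((PF.var _).pow 3).add ((PF.var _).pow 2)).sub
    ((PF.lit 2).mul (PF.var _))).sub PF.one)) ((PF.var _).pow 3)).and ?_
  exact (dq_T5 (PF.var _) (PF.var _)).and (dq_T7 (PF.var _) (PF.var _))

end Pool.Agent.TH716.TW
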