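import Pool.Agent.TH716.TW.Uni
import Pool.Agent.TH822.J1405
import Pool.Agent.TH159.J1406
import Pool.Agent.TH73.J1407
import Pool.Agent.TH656.J1408
import Pool.Agent.TH90.TW5.Fin
import Pool.Agent.TH159.J1410
import Pool.Agent.TH75.TW.J1411
import Pool.Agent.TH75.TW.J1412
import Pool.Agent.TH75.TW.J1413
import Pool.Agent.TH909.J1414
import Pool.Agent.TH645.J1415
import Pool.Agent.TH699.J1416
import Pool.Agent.TH554.J1417
import Pool.Agent.TH89.J1418
import Pool.Agent.TH515.J1419
import Pool.Agent.TH868.J1420
import Pool.Agent.TH868.J1421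
import Pool.Agent.TH939.J1422.C
import Pool.Agent.TH898.Euler
import Pool.Agent.TH929.TW.Many
import Pool.Agent.TH445.J1425
import Pool.Agent.TH113.J1426
import Pool.Agent.TH113.J1427

/-!
# Tower project: all the facts
-/

set_option autoImplicit false

namespace Pool.Agent.TH716.TW

open MvPolynomial

theorem grp : GrpFacts := TH822.J1405.result
theorem val : S_val := (TH159.J1406.result grp).1
theorem diff : S_diff := (TH159.J1406.result grp).2
theorem rank : S_rk := TH73.J1407.result grp val diff
theorem tabs : S_den ∧ S_t5 ∧ S_t7 := TH656.J1408.result grp val diff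
theorem gen : S_gen := TH159.J1410.result grp TH90.TW5.result
theorem aut : S_aut := TH554.J1417.result
theorem idnorm : S_idnorm := TH89.J1418.result aut
theorem amb : S_amb := TH515.J1419.result aut
theorem surj : S_surj :=
  TH445.J1425.result idnorm TH939.J1422.result TH898.Euler.result TH929.TW.Many.result
theorem genus : S_genus := TH868.J1420.result aut amb surj
theorem hnt : S_HNT := TH868.J1421.result aut idnorm genus
theorem surf : S_surf := TH699.J1416.result hnt aut
theorem t7c : S_T7c := t7c_of TH645.J1415.result surf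
theorem sound : S_sound := TH113.J1426.result grp val TH75.J1413.result.1 TH75.J1413.result.2
theorem exist : S_exist := TH113.J1427.result grp val rank TH909.J1414.result t7c

theorem tower_growth_final : ∃ (C : ℕ) (A : Set ℕ), A.Infinite ∧ ∀ m : ℕ,
    ∃ p : MvPolynomial (Fin (C * (m + 1) + 1)) ℤ,
      p.totalDegree ≤ 4 ∧ ∑ t ∈ p.support, |p.coeff t| ≤ C * (m + 1) ∧
      ∀ a ∈ A,
        (∃ x : Fin (C * (m + 1)) → ℚ,
          aeval (Fin.cons (a : ℚ) x : Fin (C * (m + 1) + 1) → ℚ) p = 0) ∧
        ∀ x : Fin (C * (m + 1)) → ℚ,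
          aeval (Fin.cons (a : ℚ) x : Fin (C * (m + 1) + 1) → ℚ) p = 0 →
            ∃ i, (fun k => 2 ^ k)^[m] (Nat.log 2 a) ≤ max (x i).num.natAbs (x i).den :=
  tower_growth grp gen val rank tabs.1 tabs.2.1 tabs.2.2 TH75.J1411.result TH75.J1412.result
    TH75.J1413.result.1 TH75.J1413.result.2 TH909.J1414.result t7c sound exist

end Pool.Agent.TH716.TW
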