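import Pool.Agent.TH716.TW.Defs

/-!
# Tower project: growth along a chain
-/

set_option autoImplicit false

namespace Pool.Agent.TH716.TW

open scoped Classical

/-- five primes inert in both fields -/
def ps0 : List ℕ := [3, 17, 23, 37, 47]

theorem tow_pos (n : ℕ) : 1 ≤ tow n := by
  cases n with
  | zero => exact le_rfl
  | succ n => exact Nat.one_le_two_pow

theorem dd_neg (G : GrpFacts) (s : ℕ) (n : ℤ) : dd s (-n) = dd s n := by
  unfold dd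
  rw [(G.neg n).1]

theorem dd_natAbs (G : GrpFacts) (s : ℕ) (n : ℤ) : dd s (n.natAbs : ℤ) = dd s n := by
  rcases Int.natAbs_eq n with h | h
  · rw [← h]
  · conv_rhs => rw [h]
    rw [dd_neg G]

theorem rkS_dd (hrk : S_rk) : RkS (fun s n => dd s (n : ℤ)) := by
  intro s hs
  obtain ⟨r, δ, hr, hδ, h⟩ := hrk s hs
  refine ⟨r, δ, hr, hδ, fun n hn => ?_⟩
  have h1 := h (n : ℤ) (by positivity)
  simp only [h1, Int.natCast_dvd_natCast]
  by_cases hd : r ∣ n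
  · rw [if_pos hd, if_pos hd]
    have : ((n : ℤ) / (r : ℤ)) = ((n / r : ℕ) : ℤ) := by push_cast; rfl
    rw [this, padicValInt.of_nat]
  · rw [if_neg hd, if_neg hd]

theorem DD_props (hden : S_den) : ∀ n : ℕ, 0 < n →
    DD (n : ℤ) ≠ 0 ∧ ∀ s : ℕ, s.Prime → padicValNat s (DD (n : ℤ)) = dd s (n : ℤ) := by
  intro n hn
  obtain ⟨h1, h2⟩ := hden (n : ℤ) (by positivity)
  refine ⟨fun h => ?_, h2⟩
  rw [h] at h1
  exact (zz (n : ℤ)).den_ne_zero (by rw [h1]; norm_num)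

theorem DD_t5 (ht5 : S_t5) : ∀ n : ℕ, 0 < n → ¬ 7 ∣ n →
    jacobiSym (DD (n : ℤ) : ℤ) 5 = if n % 7 = 2 ∨ n % 7 = 5 then -1 else 1 := by
  intro n hn h7
  rw [ht5 (n : ℤ) (by positivity) (by omega)]
  by_cases h : n % 7 = 2 ∨ n % 7 = 5
  · rw [if_pos h, if_pos (by omega)]
  · rw [if_neg h, if_neg (by omega)]

theorem DD_t7 (ht7 : S_t7) : ∀ n : ℕ, 0 < n → ¬ 5 ∣ n →
    ¬ 7 ∣ DD (n : ℤ) ∧ cb (DD (n : ℤ)) = if n % 5 = 2 ∨ n % 5 = 3 then 2 else 0 := by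
  intro n hn h5
  obtain ⟨h1, h2⟩ := ht7 (n : ℤ) (by positivity) (by omega)
  refine ⟨h1, ?_⟩
  rw [h2]
  by_cases h : n % 5 = 2 ∨ n % 5 = 3
  · rw [if_pos h, if_pos (by omega)]
  · rw [if_neg h, if_neg (by omega)]

/-- the primes of the first type dividing `2 M` -/
noncomputable def A5 (M : ℤ) : Finset ℕ := (2 * M).natAbs.primeFactors.filter I5

/-- the odd primes of the second type dividing `2 M` -/
noncomputable def A7 (M : ℤ) : Finset ℕ :=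
  (2 * M).natAbs.primeFactors.filter (fun s => I7 s ∧ s ≠ 2)

theorem mem_A5 {M : ℤ} (hM : M ≠ 0) (s : ℕ) : s ∈ A5 M ↔ I5 s ∧ (s : ℤ) ∣ 2 * M := by
  unfold A5
  rw [Finset.mem_filter, Nat.mem_primeFactors, Int.natCast_dvd]
  have h0 : (2 * M).natAbs ≠ 0 := by omega
  constructor
  · rintro ⟨⟨-, h, -⟩, h'⟩; exact ⟨h', h⟩
  · rintro ⟨h', h⟩; exact ⟨⟨h'.1, h, h0⟩, h'⟩

theorem mem_A7 {M : ℤ} (hM : M ≠ 0) (s : ℕ) :
    s ∈ A7 M ↔ (I7 s ∧ s ≠ 2) ∧ (s : ℤ) ∣ 2 * M := by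
  unfold A7
  rw [Finset.mem_filter, Nat.mem_primeFactors, Int.natCast_dvd]
  have h0 : (2 * M).natAbs ≠ 0 := by omega
  constructor
  · rintro ⟨⟨-, h, -⟩, h'⟩; exact ⟨h', h⟩
  · rintro ⟨h', h⟩; exact ⟨⟨h'.1.1, h, h0⟩, h'⟩

/-- if the order at `s` of the denominator increases then `s` divides the index -/
theorem dvd_of_lt (hrk : S_rk) {s : ℕ} (hs : s.Prime) {m n : ℤ} (hm : m ≠ 0) (hn : n ≠ 0)
    (h0 : 0 < dd s m) (h : dd s m < dd s n) : (s : ℤ) ∣ n := by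
  obtain ⟨r, δ, hr, hδ, hd⟩ := hrk s hs
  rw [hd m hm] at h0 h
  rw [hd n hn] at h
  have h1 : (r : ℤ) ∣ m := by
    by_contra h1
    rw [if_neg h1] at h0
    exact lt_irrefl _ h0
  have h2 : (r : ℤ) ∣ n := by
    by_contra h2
    rw [if_neg h2] at h
    exact absurd h (by omega)
  rw [if_pos h1, if_pos h2] at h
  have h3 : 0 < padicValInt s (n / r) := by omega
  have h4 : (s : ℤ) ∣ n / r := by
    have h5 : padicValInt s (n / r) ≠ 0 := h3.ne'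
    unfold padicValInt at h5
    have h6 := dvd_of_one_le_padicValNat (Nat.one_le_iff_ne_zero.2 h5)
    rwa [Int.natCast_dvd]
  exact h4.trans (Int.ediv_dvd_of_dvd h2)

section
variable (G : GrpFacts) (hrk : S_rk) (hden : S_den) (ht5 : S_t5) (ht7 : S_t7) (hGA : S_GA)
  (hGB : S_GB)

include G hrk hden ht5 hGA in
/-- from `A7` to the primes of the first type of odd order -/
theorem grow_GA {M : ℤ} (hM : M ≠ 0) (U : Finset ℕ)
    (hU : ∀ s, I5 s → Odd (dd s (2 * M)) → s ∈ U) :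
    2 ^ (A7 M).card ≤ U.card + 2 * (A7 M).card + 3 := by
  have h0 : 0 < (2 * M).natAbs := by omega
  refine hGA (fun n => DD (n : ℤ)) (fun s n => dd s (n : ℤ)) (rkS_dd hrk) (DD_props hden)
    (DD_t5 ht5) (2 * M).natAbs h0 ?_ (A7 M) U ?_ ?_
  · rw [Int.natAbs_mul]
    exact even_two_mul _
  · intro l hl
    obtain ⟨⟨h1, h2⟩, h3⟩ := (mem_A7 hM l).1 hl
    exact ⟨h1, h2, Int.natCast_dvd.1 h3⟩
  · intro s hs hodd
    refine hU s hs ?_
    simp only [dd_natAbs G] at hodd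
    exact hodd

include G hrk hden ht7 hGB in
/-- from `A5` to the primes of the second type of order prime to `3` -/
theorem grow_GB {M : ℤ} (hM : M ≠ 0) (U : Finset ℕ)
    (hU : ∀ s, I7 s → ¬ 3 ∣ dd s (2 * M) → s ∈ U) :
    2 ^ (A5 M).card ≤ U.card + 2 * (A5 M).card + 2 := by
  have h0 : 0 < (2 * M).natAbs := by omega
  refine hGB (fun n => DD (n : ℤ)) (fun s n => dd s (n : ℤ)) (rkS_dd hrk) (DD_props hden)
    (DD_t7 ht7) (2 * M).natAbs h0 (A5 M) U ?_ ?_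
  · intro l hl
    obtain ⟨h1, h3⟩ := (mem_A5 hM l).1 hl
    exact ⟨h1, Int.natCast_dvd.1 h3⟩
  · intro s hs hodd
    refine hU s hs ?_
    simp only [dd_natAbs G] at hodd
    exact hodd

theorem tow_num {a c t : ℕ} (h : 2 ^ a ≤ c + 2 * a + 3) (ha : t + 4 ≤ a) : 2 ^ t + 4 ≤ c := by
  obtain ⟨u, rfl⟩ : ∃ u, a = u + 4 := ⟨a - 4, by omega⟩
  have h1 : t ≤ u := by omega
  have h2 : 2 ^ t ≤ 2 ^ u := Nat.pow_le_pow_right (by norm_num) h1
  have h3 : u + 1 ≤ 2 ^ u := Nat.lt_two_pow_self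
  rw [pow_add] at h
  omega

include G hrk hden ht5 ht7 hGA hGB in
theorem chain_large (M : ℕ → ℤ) (m : ℕ) (h0 : ∀ i ≤ m, M i ≠ 0)
    (hx : ∀ i < m, Nx (M i) (M (i + 1))) (hs : ((ps0.prod : ℕ) : ℤ) ∣ M 0) :
    ∀ i ≤ m, tow i + 4 ≤ (A5 (M i)).card ∧ tow i + 4 ≤ (A7 (M i)).card := by
  intro i
  induction i with
  | zero =>
    intro _
    have hM0 := h0 0 (Nat.zero_le _)
    have hsub5 : ({3, 17, 23, 37, 47} : Finset ℕ) ⊆ A5 (M 0) := by
      intro s hs'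
      rw [mem_A5 hM0]
      have hs2 : (s : ℤ) ∣ ((ps0.prod : ℕ) : ℤ) := by
        rw [Int.natCast_dvd_natCast]
        have hsl : s ∈ ps0 := by simpa [ps0] using hs'
        exact List.dvd_prod hsl
      refine ⟨?_, Dvd.dvd.mul_left (hs2.trans hs) 2⟩
      simp only [Finset.mem_insert, Finset.mem_singleton] at hs'
      rcases hs' with rfl | rfl | rfl | rfl | rfl <;> (refine ⟨by norm_num, by norm_num, ?_⟩; norm_num)
    have hsub7 : ({3, 17, 23, 37, 47} : Finset ℕ) ⊆ A7 (M 0) := by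
      intro s hs'
      rw [mem_A7 hM0]
      have hs2 : (s : ℤ) ∣ ((ps0.prod : ℕ) : ℤ) := by
        rw [Int.natCast_dvd_natCast]
        have hsl : s ∈ ps0 := by simpa [ps0] using hs'
        exact List.dvd_prod hsl
      refine ⟨?_, Dvd.dvd.mul_left (hs2.trans hs) 2⟩
      simp only [Finset.mem_insert, Finset.mem_singleton] at hs'
      rcases hs' with rfl | rfl | rfl | rfl | rfl <;>
        (refine ⟨⟨by norm_num, ?_⟩, by norm_num⟩; norm_num)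
    have c5 := Finset.card_le_card hsub5
    have c7 := Finset.card_le_card hsub7
    have e : ({3, 17, 23, 37, 47} : Finset ℕ).card = 5 := by decide
    rw [e] at c5 c7
    exact ⟨c5, c7⟩
  | succ i ih =>
    intro hi
    obtain ⟨ih5, ih7⟩ := ih (by omega)
    have hM := h0 i (by omega)
    have hM' := h0 (i + 1) hi
    obtain ⟨n5, n7⟩ := hx i (by omega)
    have h2M : 2 * M i ≠ 0 := mul_ne_zero two_ne_zero hM
    have h2M' : 2 * M (i + 1) ≠ 0 := mul_ne_zero two_ne_zero hM'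
    constructor
    · have h1 := grow_GA G hrk hden ht5 hGA hM (A5 (M (i + 1))) (fun s hs hodd => by
        rw [mem_A5 hM']
        exact ⟨hs, dvd_of_lt hrk hs.1 h2M h2M' hodd.pos (n5 s hs hodd)⟩)
      exact tow_num h1 ih7
    · have h1 := grow_GB G hrk hden ht7 hGB hM (insert 2 (A7 (M (i + 1)))) (fun s hs hodd => by
        rw [Finset.mem_insert]
        by_cases h2 : s = 2
        · exact Or.inl h2
        · right
          rw [mem_A7 hM']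
          refine ⟨⟨hs, h2⟩, dvd_of_lt hrk hs.1 h2M h2M' ?_ (n7 s hs hodd)⟩
          exact Nat.pos_of_ne_zero (by rintro h; rw [h] at hodd; exact hodd (dvd_zero 3)))
      have h2 := Finset.card_insert_le 2 (A7 (M (i + 1)))
      exact tow_num (a := (A5 (M i)).card) (by omega) ih5

/-! ### the size of the last point -/

include G hrk hden ht5 hGA in
theorem DD_large {M : ℤ} (hM : M ≠ 0) {t : ℕ} (h7 : t + 4 ≤ (A7 M).card) :
    2 ^ (2 ^ t + 4) ≤ DD (2 * M) := by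
  have h2M : 2 * M ≠ 0 := mul_ne_zero two_ne_zero hM
  obtain ⟨e1, e2⟩ := hden _ h2M
  have hD0 : DD (2 * M) ≠ 0 := fun h => by
    rw [h] at e1
    exact (zz (2 * M)).den_ne_zero (by rw [e1]; norm_num)
  set U := (DD (2 * M)).primeFactors with hU
  have h1 := grow_GA G hrk hden ht5 hGA hM U (fun s hs hodd => by
    rw [hU, Nat.mem_primeFactors]
    refine ⟨hs.1, ?_, hD0⟩
    have h3 := e2 s hs.1
    have h4 : padicValNat s (DD (2 * M)) ≠ 0 := by rw [h3]; exact hodd.pos.ne'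
    exact dvd_of_one_le_padicValNat (Nat.one_le_iff_ne_zero.2 h4))
  have h2 := tow_num h1 h7
  have h3 : ∏ p ∈ U, p ∣ DD (2 * M) := Nat.prod_primeFactors_dvd _
  have h4 : 2 ^ U.card ≤ ∏ p ∈ U, p := by
    refine Finset.pow_card_le_prod U (fun p => p) 2 ?_
    intro p hp
    exact (Nat.prime_of_mem_primeFactors hp).two_le
  calc 2 ^ (2 ^ t + 4) ≤ 2 ^ U.card := Nat.pow_le_pow_right (by norm_num) h2
    _ ≤ ∏ p ∈ U, p := h4
    _ ≤ DD (2 * M) := Nat.le_of_dvd (Nat.pos_of_ne_zero hD0) h3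

/-- the denominator of the double -/
theorem den_dbl (z X : ℚ) (h0 : z ^ 3 - 3 * z + 1 ≠ 0)
    (hX : X = (z ^ 4 + 6 * z ^ 2 - 8 * z + 9) / (4 * (z ^ 3 - 3 * z + 1))) :
    X.den ≤ 20 * (max z.num.natAbs z.den) ^ 4 := by
  set a : ℤ := z.num with ha
  set b : ℤ := (z.den : ℤ) with hb
  set H : ℕ := max z.num.natAbs z.den with hH
  have hb0 : (b : ℚ) ≠ 0 := by
    rw [hb]; exact_mod_cast z.den_ne_zero
  have hz : z = (a : ℚ) / b := by
    rw [ha, hb]; exact_mod_cast (Rat.num_div_den z).symm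
  set D : ℤ := 4 * b * (a ^ 3 - 3 * a * b ^ 2 + b ^ 3) with hD
  set N : ℤ := a ^ 4 + 6 * a ^ 2 * b ^ 2 - 8 * a * b ^ 3 + 9 * b ^ 4 with hN
  have hc0 : ((a : ℚ) ^ 3 - 3 * a * b ^ 2 + b ^ 3) ≠ 0 := by
    intro h
    apply h0
    rw [hz]
    field_simp
    linear_combination h
  have hD0 : (D : ℚ) ≠ 0 := by
    rw [hD]
    push_cast
    exact mul_ne_zero (mul_ne_zero (by norm_num) hb0) hc0
  have hXD : X = (N : ℚ) / (D : ℚ) := by
    rw [hX, eq_div_iff hD0, hz, hN, hD]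
    push_cast
    have h1 : ((a : ℚ) / b) ^ 3 - 3 * (a / b) + 1 ≠ 0 := by rw [← hz]; exact h0
    rw [div_mul_eq_mul_div, div_eq_iff (mul_ne_zero (by norm_num) h1)]
    field_simp
  have h2 : (X.den : ℤ) ∣ D := by
    rw [hXD, ← Rat.divInt_eq_div]
    exact Rat.den_dvd N D
  have hDZ : D ≠ 0 := by exact_mod_cast hD0
  have h3 : (X.den : ℤ) ≤ |D| := by
    refine Int.le_of_dvd (abs_pos.2 hDZ) ?_
    rwa [dvd_abs]
  have haH : |a| ≤ (H : ℤ) := by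
    rw [hH, ha, Int.abs_eq_natAbs]
    exact_mod_cast le_max_left _ _
  have hbH : |b| ≤ (H : ℤ) := by
    rw [hH, hb, Int.abs_eq_natAbs, Int.natAbs_natCast]
    exact_mod_cast le_max_right _ _
  have hH0 : (0 : ℤ) ≤ H := by positivity
  have h4 : |D| ≤ 20 * (H : ℤ) ^ 4 := by
    have e1 : |a ^ 3| ≤ (H : ℤ) ^ 3 := by rw [abs_pow]; exact pow_le_pow_left₀ (abs_nonneg _) haH 3
    have e2 : |b ^ 3| ≤ (H : ℤ) ^ 3 := by rw [abs_pow]; exact pow_le_pow_left₀ (abs_nonneg _) hbH 3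
    have e3 : |a * b ^ 2| ≤ (H : ℤ) ^ 3 := by
      rw [abs_mul, abs_pow]
      calc |a| * |b| ^ 2 ≤ (H : ℤ) * (H : ℤ) ^ 2 :=
            mul_le_mul haH (pow_le_pow_left₀ (abs_nonneg _) hbH 2) (by positivity) hH0
        _ = (H : ℤ) ^ 3 := by ring
    have e4 : |a ^ 3 - 3 * a * b ^ 2 + b ^ 3| ≤ 5 * (H : ℤ) ^ 3 := by
      have e5 : a ^ 3 - 3 * a * b ^ 2 + b ^ 3 = a ^ 3 - 3 * (a * b ^ 2) + b ^ 3 := by ring
      rw [e5]
      rw [abs_le] at e1 e2 e3 ⊢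
      constructor <;> linarith [e1.1, e1.2, e2.1, e2.2, e3.1, e3.2]
    rw [hD, abs_mul, abs_mul]
    calc |(4 : ℤ)| * |b| * |a ^ 3 - 3 * a * b ^ 2 + b ^ 3| ≤ 4 * (H : ℤ) * (5 * (H : ℤ) ^ 3) := by
          refine mul_le_mul ?_ e4 (abs_nonneg _) (by positivity)
          rw [abs_of_nonneg (by norm_num : (0 : ℤ) ≤ 4)]
          linarith
      _ = 20 * (H : ℤ) ^ 4 := by ring
  exact_mod_cast h3.trans h4

include G in
theorem dbl_formula {M : ℤ} (hM : M ≠ 0) : zz M ^ 3 - 3 * zz M + 1 ≠ 0 ∧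
    zz (2 * M) = (zz M ^ 4 + 6 * zz M ^ 2 - 8 * zz M + 9) / (4 * (zz M ^ 3 - 3 * zz M + 1)) := by
  have h1 := G.on M hM
  have h2 := G.y_ne M hM
  have h3 := (G.dbl M hM).1
  have h4 : zz M ^ 3 - 3 * zz M + 1 ≠ 0 := by rw [← h1]; exact pow_ne_zero 2 h2
  refine ⟨h4, ?_⟩
  rw [h3, ← h1]
  field_simp
  rw [h1]
  ring

theorem tow_sq (T : ℕ) (hT : 1 ≤ T) : T ^ 2 ≤ 2 ^ 2 ^ T := by
  obtain ⟨u, rfl⟩ : ∃ u, T = u + 1 := ⟨T - 1, by omega⟩
  have h1 : u + 1 ≤ 2 ^ u := Nat.lt_two_pow_self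
  have h2 : u + 1 ≤ 2 ^ (u + 1) := by
    calc u + 1 ≤ 2 ^ u := h1
      _ ≤ 2 ^ (u + 1) := Nat.pow_le_pow_right (by norm_num) (by omega)
  calc (u + 1) ^ 2 ≤ (2 ^ (u + 1)) ^ 2 := Nat.pow_le_pow_left h2 2
    _ = 2 ^ ((u + 1) * 2) := (pow_mul _ _ _).symm
    _ ≤ 2 ^ 2 ^ (u + 1) := Nat.pow_le_pow_right (by norm_num) (by rw [pow_succ]; omega)

include G hrk hden ht5 hGA in
theorem num_large {M : ℤ} (hM : M ≠ 0) {T : ℕ} (hT : 1 ≤ T) (h7 : T + 4 ≤ (A7 M).card) :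
    T ≤ max (zz M).num.natAbs (zz M).den := by
  set H := max (zz M).num.natAbs (zz M).den with hH
  obtain ⟨h0, hX⟩ := dbl_formula G hM
  have h1 := den_dbl _ _ h0 hX
  rw [← hH] at h1
  have h2M : 2 * M ≠ 0 := mul_ne_zero two_ne_zero hM
  rw [(hden _ h2M).1] at h1
  have h2 := DD_large G hrk hden ht5 hGA hM h7
  have h3 : (2 ^ (2 ^ T + 4)) ^ 2 ≤ 20 * H ^ 4 := (Nat.pow_le_pow_left h2 2).trans h1
  have h4 := tow_sq T hT
  by_contra hlt
  rw [not_le] at hlt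
  have h5 : H ^ 4 ≤ T ^ 4 := Nat.pow_le_pow_left hlt.le 4
  have h6 : (T ^ 2) ^ 2 ≤ (2 ^ 2 ^ T) ^ 2 := Nat.pow_le_pow_left h4 2
  have h7' : (T ^ 2) ^ 2 = T ^ 4 := by ring
  have h8 : (2 ^ (2 ^ T + 4)) ^ 2 = 256 * (2 ^ 2 ^ T) ^ 2 := by rw [pow_add]; ring
  have h9 : 0 < (2 ^ 2 ^ T) ^ 2 := by positivity
  rw [h8] at h3
  rw [h7'] at h6
  generalize hY : (2 ^ 2 ^ T) ^ 2 = Y at h3 h6 h9
  omega

end

end Pool.Agent.TH716.TW
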