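import Pool.Agent.TH716.TW.Dio

/-!
# Tower project: assembly
-/

set_option autoImplicit false

namespace Pool.Agent.TH716.TW

open MvPolynomial Pool.Agent.H528R3

/-- completeness of the cubic test -/
theorem t7c_of (h1 : S_choose) (h2 : S_surf) : S_T7c := by
  intro N F hN hF hp h7
  obtain ⟨e, he, hlt, hodd, hv⟩ := h1 N F hN hF hp h7
  have hF2 : F ^ 2 ≠ 0 := pow_ne_zero 2 hF
  have hμ : (-e / F ^ 2) ≠ 0 := div_ne_zero (neg_ne_zero.2 he) hF2
  obtain ⟨a, b, c, h⟩ := h2 (N * e ^ 3 + N ^ 2) (-e / F ^ 2) hμ hlt hodd hv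
  refine ⟨a, b, c, e, ?_⟩
  have h3 : F ^ 2 * (nm a b c - -e / F ^ 2 * tr a b c + (N * e ^ 3 + N ^ 2)) = 0 := by
    rw [h, mul_zero]
  have h4 : F ^ 2 * (-e / F ^ 2 * tr a b c) = -e * tr a b c := by
    field_simp
  linear_combination h3 + h4

section
variable (G : GrpFacts) (hgen : S_gen) (hrk : S_rk) (hden : S_den) (ht5 : S_t5) (ht7 : S_t7)
  (hGA : S_GA) (hGB : S_GB) (hsound : S_sound) (hexist : S_exist)

/-- the chain relation -/
def ChR (m : ℕ) (s : ℕ → Fin 2 → ℚ) : Prop :=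
  StR (s 0 0) (s 0 1) ∧ ∀ i < m, StepR (s i 0) (s i 1) (s (i + 1) 0) (s (i + 1) 1)

include G hgen hsound in
theorem chR_sound (m : ℕ) (s : ℕ → Fin 2 → ℚ) (h : ChR m s) :
    ∃ M : ℕ → ℤ, (∀ i ≤ m, M i ≠ 0 ∧ s i 0 = zz (M i) ∧ s i 1 = yy (M i)) ∧
      (∀ i < m, Nx (M i) (M (i + 1))) ∧ ((ps0.prod : ℕ) : ℤ) ∣ M 0 := by
  induction m with
  | zero =>
    obtain ⟨M, h1, h2, h3, h4⟩ := (stR_iff G hgen _ _).1 h.1
    refine ⟨fun _ => M, fun i hi => ?_, fun i hi => absurd hi (by omega), h2⟩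
    obtain rfl : i = 0 := by omega
    exact ⟨h1, h3, h4⟩
  | succ m ih =>
    obtain ⟨M, h1, h2, h3⟩ := ih ⟨h.1, fun i hi => h.2 i (by omega)⟩
    have h4 := h.2 m (by omega)
    obtain ⟨ho, e1, e2⟩ := h1 m le_rfl
    rw [e1, e2] at h4
    obtain ⟨M', ho', e1', e2', hx⟩ := (stepR_iff G hgen ho _ _).1 h4
    have hx := hsound _ _ ho ho' hx
    refine ⟨fun i => if i ≤ m then M i else M', fun i hi => ?_, fun i hi => ?_, ?_⟩
    · by_cases him : i ≤ m
      · simp only [if_pos him]; exact h1 i him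
      · obtain rfl : i = m + 1 := by omega
        simp only [if_neg him]
        exact ⟨ho', e1', e2'⟩
    · by_cases him : i + 1 ≤ m
      · simp only [if_pos him, if_pos (show i ≤ m by omega)]
        exact h2 i (by omega)
      · obtain rfl : i = m := by omega
        simp only [if_neg him, if_pos le_rfl]
        exact hx
    · simpa using h3

include hexist in
theorem exists_chain : ∃ M : ℕ → ℤ, (∀ i, M i ≠ 0) ∧ (∀ i, StepT (M i) (M (i + 1))) ∧
    ((ps0.prod : ℕ) : ℤ) ∣ M 0 := by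
  obtain ⟨M₀, h₀⟩ : ∃ M₀ : {M : ℤ // M ≠ 0}, ((ps0.prod : ℕ) : ℤ) ∣ M₀.1 :=
    ⟨⟨((ps0.prod : ℕ) : ℤ), by decide⟩, dvd_refl _⟩
  have hstep : ∀ M : {M : ℤ // M ≠ 0}, ∃ M' : {M : ℤ // M ≠ 0}, StepT M.1 M'.1 := by
    rintro ⟨M, hM⟩
    obtain ⟨M', h1, h2⟩ := hexist M hM
    exact ⟨⟨M', h1⟩, h2⟩
  choose f hf using hstep
  let g : ℕ → {M : ℤ // M ≠ 0} := fun i => Nat.rec M₀ (fun _ a => f a) i
  have hg : ∀ i, g (i + 1) = f (g i) := fun i => rfl
  refine ⟨fun i => (g i).1, fun i => (g i).2, fun i => ?_, h₀⟩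
  have := hf (g i)
  rw [← hg] at this
  exact this

include G hgen hexist in
theorem chR_exists (m : ℕ) : ∃ s, ChR m s := by
  obtain ⟨M, h1, h2, h3⟩ := exists_chain hexist
  refine ⟨fun i j => if j = 0 then zz (M i) else yy (M i), ?_, fun i _ => ?_⟩
  · simp only [if_true, one_ne_zero, if_false]
    exact (stR_iff G hgen _ _).2 ⟨M 0, h1 0, h3, rfl, rfl⟩
  · simp only [if_true, one_ne_zero, if_false]
    exact (stepR_iff G hgen (h1 i) _ _).2 ⟨M (i + 1), h1 (i + 1), rfl, rfl, h2 i⟩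

include G hgen hrk hden ht5 ht7 hGA hGB hsound in
/-- the last coordinate of a chain is huge -/
theorem chain_huge (n : ℕ) (x : ℕ → Fin 2 → ℚ) (hx : ChR n x) :
    tow n ≤ max (x n 0).num.natAbs (x n 0).den := by
  obtain ⟨M, h1, h2, h3⟩ := chR_sound G hgen hsound _ _ hx
  obtain ⟨-, h4⟩ := chain_large G hrk hden ht5 ht7 hGA hGB M n (fun i hi => (h1 i hi).1) h2 h3
    n le_rfl
  obtain ⟨ho, e1, -⟩ := h1 n le_rfl
  rw [e1]
  exact num_large G hrk hden ht5 hGA ho (tow_pos n) h4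

include G hgen hrk hden ht5 ht7 hGA hGB hsound hexist in
/-- Polynomial equations of degree at most `4`, of linear size, whose smallest rational solutions
are not bounded by an elementary function. -/
theorem tower_solutions : ∃ C : ℕ, ∀ n : ℕ, ∃ p : MvPolynomial (Fin (C * (n + 1))) ℤ,
    p.totalDegree ≤ 4 ∧ ∑ m ∈ p.support, |p.coeff m| ≤ C * (n + 1) ∧
    (∃ x : Fin (C * (n + 1)) → ℚ, aeval x p = 0) ∧
    ∀ x : Fin (C * (n + 1)) → ℚ, aeval x p = 0 →
      ∃ i, tow n ≤ max (x i).num.natAbs (x i).den := by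
  obtain ⟨r, B, hr⟩ := chain_poly dio_start dio_step
  refine ⟨(2 + r) + B.toNat, fun n => ?_⟩
  set C := (2 + r) + B.toNat with hC
  obtain ⟨p, hd, hl, hp⟩ := hr n
  have hcard : Fintype.card (Fin (n + 1) × (Fin 2 ⊕ Fin r)) ≤ Fintype.card (Fin (C * (n + 1))) := by
    simp only [Fintype.card_prod, Fintype.card_sum, Fintype.card_fin]
    calc (n + 1) * (2 + r) = (2 + r) * (n + 1) := by ring
      _ ≤ C * (n + 1) := Nat.mul_le_mul_right _ (by omega)
  obtain ⟨ι⟩ := Function.Embedding.nonempty_of_card_le hcard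
  refine ⟨rename ι p, (totalDegree_rename_le _ _).trans hd, ?_, ?_, ?_⟩
  · change l1 (rename ι p) ≤ _
    refine (l1_rename _ _).trans (hl.trans ?_)
    have h1 : B ≤ B.toNat := Int.self_le_toNat B
    have h4 : (0 : ℤ) ≤ (n : ℤ) + 1 := by positivity
    calc B * ((n : ℤ) + 1) ≤ B.toNat * ((n : ℤ) + 1) := mul_le_mul_of_nonneg_right h1 h4
      _ ≤ (C : ℤ) * (n + 1) := by
          apply mul_le_mul_of_nonneg_right _ h4
          have : B.toNat ≤ C := by omega
          exact_mod_cast this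
  · obtain ⟨x, hx⟩ := chR_exists G hgen hexist n
    obtain ⟨y, -, hy⟩ := (hp x).1 hx
    obtain ⟨z, hz⟩ := Function.Injective.surjective_comp_right (γ := ℚ) ι.injective y
    refine ⟨z, ?_⟩
    rw [aeval_rename]
    have hz' : z ∘ (ι : _ → _) = y := hz
    rw [hz', hy]
  · intro x hx
    rw [aeval_rename] at hx
    have hch : ChR n (fun i j => if h : i < n + 1 then x (ι (⟨i, h⟩, Sum.inl j)) else 0) := by
      have := (hp (fun i j => if h : i < n + 1 then x (ι (⟨i, h⟩, Sum.inl j)) else 0)).2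
        ⟨x ∘ ι, fun i j => by simp only [Function.comp, dif_pos i.2], hx⟩
      exact this
    have h1 := chain_huge G hgen hrk hden ht5 ht7 hGA hGB hsound n _ hch
    simp only [dif_pos (show n < n + 1 by omega)] at h1
    exact ⟨_, h1⟩

end

end Pool.Agent.TH716.TW
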