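import Pool.Agent.TH716.TW.Main
import Pool.Agent.TH113.J1427
import Pool.Agent.TH588.HF.Count
import Pool.Agent.TH588.HF.PolyP

/-!
# Tower project: the start relation with a parameter
-/

set_option autoImplicit false

namespace Pool.Agent.TH716.TW

open Pool.Agent.H528R2 (DioQ)
open Pool.Agent.H528R2.Dio
open Pool.Agent.TH113.J1426 (v2 v3 fin_step sq_ne cub_ne)
open Pool.Agent.TH113.J1427 (n2_pos n3_pos mult)

/-- the relation between `a` and a point `(z, y) = M P₀` such that `2 M` is divisible by the primes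
of the two types which divide `a` -/
def AR (a z y : ℚ) : Prop :=
  On z y ∧ ∃ x u X Y X' Y' w r i f f' g g' : ℚ, On x u ∧ Dbl x u X Y ∧ Dbl z y X' Y' ∧
    w * X = 1 ∧ r * X' = X ∧ i * a = 1 ∧
    f * (w ^ 2 - 5) = w ^ 2 ∧ g * (w ^ 3 + w ^ 2 - 2 * w - 1) = w ^ 3 ∧
    f' * (r ^ 2 - 5) = r ^ 2 ∧ g' * (r ^ 3 + r ^ 2 - 2 * r - 1) = r ^ 3 ∧
    T5 a f ∧ T5 a f' ∧ T7 i g ∧ T7 i g'

theorem dio_AR : DioQ 3 (fun x => AR (x 0) (x 1) (x 2)) := by
  refine DQ.dioQ (P := fun x : Fin 3 → ℚ => AR (x 0) (x 1) (x 2)) ?_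
  refine (dq_On (PF.var _) (PF.var _)).and ?_
  refine DQ.ex (DQ.ex (DQ.ex (DQ.ex (DQ.ex (DQ.ex (DQ.ex (DQ.ex (DQ.ex (DQ.ex (DQ.ex (DQ.ex
    (DQ.ex ?_))))))))))))
  refine (dq_On (PF.var _) (PF.var _)).and ?_
  refine (dq_Dbl (PF.var _) (PF.var _) (PF.var _) (PF.var _)).and ?_
  refine (dq_Dbl (PF.var _) (PF.var _) (PF.var _) (PF.var _)).and ?_
  refine (DQ.eq ((PF.var _).mul (PF.var _)) PF.one).and ?_
  refine (DQ.eq ((PF.var _).mul (PF.var _)) (PF.var _)).and ?_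
  refine (DQ.eq ((PF.var _).mul (PF.var _)) PF.one).and ?_
  refine (DQ.eq ((PF.var _).mul (((PF.var _).pow 2).sub (PF.lit 5))) ((PF.var _).pow 2)).and ?_
  refine (DQ.eq ((PF.var _).mul (((((PF.var _).pow 3).add ((PF.var _).pow 2)).sub
    ((PF.lit 2).mul (PF.var _))).sub PF.one)) ((PF.var _).pow 3)).and ?_
  refine (DQ.eq ((PF.var _).mul (((PF.var _).pow 2).sub (PF.lit 5))) ((PF.var _).pow 2)).and ?_
  refine (DQ.eq ((PF.var _).mul (((((PF.var _).pow 3).add ((PF.var _).pow 2)).sub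
    ((PF.lit 2).mul (PF.var _))).sub PF.one)) ((PF.var _).pow 3)).and ?_
  exact (dq_T5 (PF.var _) (PF.var _)).and ((dq_T5 (PF.var _) (PF.var _)).and
    ((dq_T7 (PF.var _) (PF.var _)).and (dq_T7 (PF.var _) (PF.var _))))

theorem aR_iff (G : GrpFacts) (hg : S_gen) {a : ℚ} (ha : a ≠ 0) (z y : ℚ) :
    AR a z y ↔ ∃ N M : ℤ, N ≠ 0 ∧ M ≠ 0 ∧ z = zz M ∧ y = yy M ∧
      T5 a (n2 (1 / zz (2 * N))) ∧ T5 a (n2 (zz (2 * N) / zz (2 * M))) ∧
      T7 (1 / a) (n3 (1 / zz (2 * N))) ∧ T7 (1 / a) (n3 (zz (2 * N) / zz (2 * M))) := by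
  constructor
  · rintro ⟨hz, x, u, X, Y, X', Y', w, r, i, f, f', g, g', hx, d1, d2, e1, e2, e3, e4, e5, e6, e7,
      t1, t2, t3, t4⟩
    obtain ⟨M, hM, rfl, rfl⟩ := (on_iff G hg _ _).1 hz
    obtain ⟨N, hN, rfl, rfl⟩ := (on_iff G hg _ _).1 hx
    obtain ⟨rfl, rfl⟩ := (dbl_iff G hN _ _).1 d1
    obtain ⟨rfl, rfl⟩ := (dbl_iff G hM _ _).1 d2
    obtain rfl := (eq_div_iff (G.pos N hN).ne').2 e1
    obtain rfl := (eq_div_iff (G.pos M hM).ne').2 e2
    obtain rfl := (eq_div_iff ha).2 e3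
    obtain rfl := (eq_n2_iff _ _).2 e4
    obtain rfl := (eq_n3_iff _ _).2 e5
    obtain rfl := (eq_n2_iff _ _).2 e6
    obtain rfl := (eq_n3_iff _ _).2 e7
    exact ⟨N, M, hN, hM, rfl, rfl, t1, t2, t3, t4⟩
  · rintro ⟨N, M, hN, hM, rfl, rfl, t1, t2, t3, t4⟩
    exact ⟨(on_iff G hg _ _).2 ⟨M, hM, rfl, rfl⟩, _, _, _, _, _, _, 1 / zz (2 * N),
      zz (2 * N) / zz (2 * M), 1 / a, _, _, _, _, (on_iff G hg _ _).2 ⟨N, hN, rfl, rfl⟩,
      (dbl_iff G hN _ _).2 ⟨rfl, rfl⟩, (dbl_iff G hM _ _).2 ⟨rfl, rfl⟩,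
      one_div_mul_cancel (G.pos N hN).ne', div_mul_cancel₀ _ (G.pos M hM).ne',
      one_div_mul_cancel ha, (eq_n2_iff _ _).1 rfl, (eq_n3_iff _ _).1 rfl,
      (eq_n2_iff _ _).1 rfl, (eq_n3_iff _ _).1 rfl, t1, t2, t3, t4⟩

section
variable (G : GrpFacts) (hgen : S_gen) (hv : S_val) (hrk : S_rk) (hden : S_den) (ht5 : S_t5)
  (ht7 : S_t7) (hGA : S_GA) (hGB : S_GB) (h5s : S_T5s) (h7s : S_T7s) (h5c : S_T5c) (h7c : S_T7c)
  (hsound : S_sound) (hexist : S_exist)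

include G hv in
theorem dd_pos_of {s : ℕ} (hs : s.Prime) {N : ℤ} (hN : N ≠ 0)
    (h : 0 < padicValRat s (1 / zz (2 * N))) : 0 < dd s (2 * N) := by
  have : Fact s.Prime := ⟨hs⟩
  have h2N : 2 * N ≠ 0 := mul_ne_zero two_ne_zero hN
  have hx := (G.pos N hN).ne'
  rw [padicValRat.div one_ne_zero hx, padicValRat.one] at h
  by_contra hcon
  have h0 : dd s (2 * N) = 0 := by omega
  rcases ((hv s hs (2 * N) h2N).1 h0).1 with h1 | h1
  · exact hx h1
  · omega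

include G hgen hv hrk h5s h7s in
theorem aR_sound {a : ℚ} (ha : a ≠ 0) {z y : ℚ} (h : AR a z y) :
    ∃ M : ℤ, M ≠ 0 ∧ z = zz M ∧ y = yy M ∧
      (∀ s, I5 s → padicValRat s a = 1 → (s : ℤ) ∣ 2 * M) ∧
      (∀ s, I7 s → padicValRat s a = 1 → (s : ℤ) ∣ 2 * M) := by
  obtain ⟨N, M, hN, hM, rfl, rfl, t1, t2, t3, t4⟩ := (aR_iff G hgen ha _ _).1 h
  have h2N : 2 * N ≠ 0 := mul_ne_zero two_ne_zero hN
  have h2M : 2 * M ≠ 0 := mul_ne_zero two_ne_zero hM
  have hx := (G.pos N hN).ne'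
  have hx' := (G.pos M hM).ne'
  have hw : 1 / zz (2 * N) ≠ 0 := one_div_ne_zero hx
  have hr : zz (2 * N) / zz (2 * M) ≠ 0 := div_ne_zero hx hx'
  refine ⟨M, hM, rfl, rfl, fun s hs hv1 => ?_, fun s hs hv1 => ?_⟩
  · have : Fact s.Prime := ⟨hs.1⟩
    have hodd : Odd (padicValRat s a) := by rw [hv1]; exact odd_one
    have key : ∀ r : ℚ, r ≠ 0 → T5 a (n2 r) → 0 < padicValRat s r := by
      intro r hr0 ht
      by_contra hcon
      push Not at hcon
      have h1 := v2 s r hr0 hcon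
      rcases h5s a (n2 r) ha ht s hs hodd with h2 | h2
      · exact (div_ne_zero (pow_ne_zero 2 hr0) (sq_ne r)) h2
      · omega
    have hd := dd_pos_of G hv hs.1 hN (key _ hw t1)
    exact dvd_of_lt hrk hs.1 h2N h2M hd (fin_step G hv hN hM hs.1 hd (key _ hr t2))
  · have : Fact s.Prime := ⟨hs.1⟩
    have hi : padicValRat s (1 / a) = -1 := by
      rw [padicValRat.div one_ne_zero ha, padicValRat.one, hv1]; norm_num
    have h3 : ¬ 3 ∣ padicValRat s (1 / a) := by rw [hi]; decide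
    have key : ∀ r : ℚ, r ≠ 0 → T7 (1 / a) (n3 r) → 0 < padicValRat s r := by
      intro r hr0 ht
      by_contra hcon
      push Not at hcon
      have h1 := v3 s r hr0 hcon
      rcases h7s (1 / a) (n3 r) (one_div_ne_zero ha) ht s hs h3 with h2 | h2
      · exact (div_ne_zero (pow_ne_zero 3 hr0) (cub_ne r)) h2
      · omega
    have hd := dd_pos_of G hv hs.1 hN (key _ hw t3)
    exact dvd_of_lt hrk hs.1 h2N h2M hd (fin_step G hv hN hM hs.1 hd (key _ hr t4))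

include G hgen hv hrk h5c h7c in
theorem aR_complete {a : ℕ} (ha : 0 < a) (hc : ∀ s : ℕ, s.Prime → (s : ℕ) ∣ a →
    padicValNat s a = 1 ∧ s ≠ 5 ∧ s ≠ 7) : ∃ z y : ℚ, AR (a : ℚ) z y := by
  have ha0 : (a : ℚ) ≠ 0 := by exact_mod_cast ha.ne'
  obtain ⟨T, hT⟩ : ∃ T : Finset ℕ, T = a.primeFactors ∪ {5, 7} := ⟨_, rfl⟩
  have hTp : ∀ s ∈ T, s.Prime := by
    intro s hs
    rw [hT, Finset.mem_union] at hs
    rcases hs with hs | hs
    · exact Nat.prime_of_mem_primeFactors hs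
    · simp only [Finset.mem_insert, Finset.mem_singleton] at hs
      rcases hs with rfl | rfl <;> norm_num
  have h5T : 5 ∈ T := by rw [hT]; simp
  have h7T : 7 ∈ T := by rw [hT]; simp
  have haT : ∀ s : ℕ, s.Prime → s ∣ a → s ∈ T := by
    intro s hs hd
    rw [hT, Finset.mem_union]
    left
    rw [Nat.mem_primeFactors]
    exact ⟨hs, hd, ha.ne'⟩
  obtain ⟨N, hN, hdN⟩ := mult G hrk 1 one_ne_zero T hTp 1
  obtain ⟨M, hM, hdM⟩ := mult G hrk N hN T hTp 1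
  have h2N : 2 * N ≠ 0 := mul_ne_zero two_ne_zero hN
  have h2M : 2 * M ≠ 0 := mul_ne_zero two_ne_zero hM
  have hx := (G.pos N hN).ne'
  have hx' := (G.pos M hM).ne'
  have hw : 1 / zz (2 * N) ≠ 0 := one_div_ne_zero hx
  have hr : zz (2 * N) / zz (2 * M) ≠ 0 := div_ne_zero hx hx'
  have vw : ∀ s ∈ T, 2 ≤ padicValRat s (1 / zz (2 * N)) := by
    intro s hs
    have : Fact s.Prime := ⟨hTp s hs⟩
    have h1 := hdN s hs
    have h2 := ((hv s (hTp s hs) _ h2N).2 (by omega)).1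
    rw [padicValRat.div one_ne_zero hx, padicValRat.one, h2]
    omega
  have vr : ∀ s ∈ T, 2 ≤ padicValRat s (zz (2 * N) / zz (2 * M)) := by
    intro s hs
    have : Fact s.Prime := ⟨hTp s hs⟩
    have h1 := hdN s hs
    have h1' := hdM s hs
    have h2 := ((hv s (hTp s hs) _ h2N).2 (by omega)).1
    have h2' := ((hv s (hTp s hs) _ h2M).2 (by omega)).1
    rw [padicValRat.div hx hx', h2, h2']
    omega
  have va : ∀ s : ℕ, s.Prime → ¬ s ∣ a → padicValRat s (a : ℚ) = 0 := by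
    intro s hs hd
    rw [padicValRat.of_nat, padicValNat.eq_zero_of_not_dvd hd]
    rfl
  have va1 : ∀ s : ℕ, s.Prime → s ∣ a → padicValRat s (a : ℚ) = 1 := by
    intro s hs hd
    rw [padicValRat.of_nat, (hc s hs hd).1]
    rfl
  have vi : ∀ s : ℕ, s.Prime → padicValRat s (1 / (a : ℚ)) = - padicValRat s (a : ℚ) := by
    intro s hs
    have : Fact s.Prime := ⟨hs⟩
    rw [padicValRat.div one_ne_zero ha0, padicValRat.one, zero_sub]
  have h5a : ¬ 5 ∣ a := fun h => (hc 5 (by norm_num) h).2.1 rfl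
  have h7a : ¬ 7 ∣ a := fun h => (hc 7 (by norm_num) h).2.2 rfl
  -- the quadratic tests
  have q5 : ∀ r : ℚ, r ≠ 0 → (∀ s ∈ T, 2 ≤ padicValRat s r) → T5 (a : ℚ) (n2 r) := by
    intro r hr0 hvr
    refine h5c _ _ ha0 (div_ne_zero (pow_ne_zero 2 hr0) (sq_ne r)) ?_ ?_
    · intro s hs _ hodd
      have : Fact s.Prime := ⟨hs⟩
      by_cases hd : s ∣ a
      · have h1 := hvr s (haT s hs hd)
        have h2 := n2_pos s r hr0 (by omega)
        rw [va1 s hs hd]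
        omega
      · rw [va s hs hd] at hodd
        exact absurd hodd (by decide)
    · have : Fact (Nat.Prime 5) := ⟨by norm_num⟩
      have h1 := hvr 5 h5T
      have h2 := n2_pos 5 r hr0 (by omega)
      rw [va 5 (by norm_num) h5a]
      omega
  -- the cubic tests
  have q7 : ∀ r : ℚ, r ≠ 0 → (∀ s ∈ T, 2 ≤ padicValRat s r) → T7 (1 / (a : ℚ)) (n3 r) := by
    intro r hr0 hvr
    have hpos : (0 : ℚ) < 1 / (a : ℚ) := by
      have : (0 : ℚ) < a := by exact_mod_cast ha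
      positivity
    refine h7c _ _ hpos (div_ne_zero (pow_ne_zero 3 hr0) (cub_ne r)) ?_ ?_
    · intro s hs hnd
      have : Fact s.Prime := ⟨hs.1⟩
      by_cases hd : s ∣ a
      · have h1 := hvr s (haT s hs.1 hd)
        have h2 := n3_pos s r hr0 (by omega)
        rw [vi s hs.1, va1 s hs.1 hd]
        norm_num
        omega
      · rw [vi s hs.1, va s hs.1 hd] at hnd
        exact absurd (by norm_num) hnd
    · have : Fact (Nat.Prime 7) := ⟨by norm_num⟩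
      have h1 := hvr 7 h7T
      have h2 := n3_pos 7 r hr0 (by omega)
      rw [vi 7 (by norm_num), va 7 (by norm_num) h7a]
      norm_num
      omega
  exact ⟨zz M, yy M, (aR_iff G hgen ha0 _ _).2 ⟨N, M, hN, hM, rfl, rfl, q5 _ hw vw, q5 _ hr vr,
    q7 _ hw vw, q7 _ hr vr⟩⟩

end

end Pool.Agent.TH716.TW
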