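import Pool.Agent.TH716.TW.Par

/-!
# Tower project: growth in a fixed number of variables, uniformly
-/

set_option autoImplicit false

namespace Pool.Agent.TH716.TW

open MvPolynomial Pool.Agent.H528R3 Pool.Agent.TH588.HF

/-! ### iterated exponentials -/

/-- iterated exponential -/
def ex (n T : ℕ) : ℕ := (fun k => 2 ^ k)^[n] T

theorem ex_zero (T : ℕ) : ex 0 T = T := rfl

theorem ex_succ (n T : ℕ) : ex (n + 1) T = 2 ^ ex n T := by
  unfold ex
  rw [Function.iterate_succ_apply']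

theorem ex_pos (n : ℕ) {T : ℕ} (hT : 1 ≤ T) : 1 ≤ ex n T := by
  cases n with
  | zero => exact hT
  | succ n => rw [ex_succ]; exact Nat.one_le_two_pow

theorem ex_add (m n T : ℕ) : ex (m + n) T = ex m (ex n T) := by
  unfold ex
  rw [Function.iterate_add_apply]

theorem ex_mono (n : ℕ) {S T : ℕ} (h : S ≤ T) : ex n S ≤ ex n T := by
  have hm : Monotone (fun k : ℕ => 2 ^ k) := fun a b hab => Nat.pow_le_pow_right (by norm_num) hab
  exact hm.iterate n h

/-! ### the parameters -/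

/-- products of the primes `≤ 4 ^ j` congruent to `3` modulo `35` -/
def aj (j : ℕ) : ℕ := ∏ p ∈ prs 35 3 j, p

/-- the parameters -/
def AA : Set ℕ := {a | ∃ j, 3 ≤ j ∧ 2 ^ j ≤ (prs 35 3 j).card ∧ a = aj j}

theorem aj_pos (j : ℕ) : 0 < aj j :=
  Finset.prod_pos fun _ hp => (mem_prs.1 hp).2.1.pos

theorem card_le_aj (j : ℕ) : 2 ^ (prs 35 3 j).card ≤ aj j :=
  Finset.pow_card_le_prod _ (fun p => p) 2 fun _ hp => (mem_prs.1 hp).2.1.two_le

theorem infinite_AA : AA.Infinite := by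
  rw [Set.infinite_iff_exists_gt]
  intro N
  obtain ⟨j, hj, hc⟩ := many_primes (q := 35) (a := 3) (by norm_num) (by norm_num) (by norm_num)
    (N + 3)
  refine ⟨aj j, ⟨j, by omega, hc, rfl⟩, ?_⟩
  have h1 := card_le_aj j
  have h2 : j < 2 ^ j := Nat.lt_two_pow_self
  have h3 : (prs 35 3 j).card < 2 ^ (prs 35 3 j).card := Nat.lt_two_pow_self
  omega

theorem dvd_aj {j s : ℕ} (hs : s.Prime) : s ∣ aj j ↔ s ∈ prs 35 3 j := by
  unfold aj
  constructor
  · intro h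
    obtain ⟨p, hp, hd⟩ := (Prime.dvd_finsetProd_iff hs.prime _).1 h
    rw [(Nat.prime_dvd_prime_iff_eq hs (mem_prs.1 hp).2.1).1 hd]
    exact hp
  · intro h
    exact Finset.dvd_prod_of_mem (fun p => p) h

theorem val_aj {j s : ℕ} (hs : s.Prime) (h : s ∈ prs 35 3 j) : padicValNat s (aj j) = 1 := by
  have hF : Fact s.Prime := ⟨hs⟩
  unfold aj
  rw [← Finset.mul_prod_erase _ (fun p => p) h]
  have hne : ∏ x ∈ (prs 35 3 j).erase s, x ≠ 0 :=
    Finset.prod_ne_zero_iff.2 fun x hx => (mem_prs.1 (Finset.mem_of_mem_erase hx)).2.1.ne_zero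
  rw [padicValNat.mul hs.ne_zero hne, padicValNat_self]
  have h0 : padicValNat s (∏ x ∈ (prs 35 3 j).erase s, x) = 0 := by
    apply padicValNat.eq_zero_of_not_dvd
    intro hd
    obtain ⟨p, hp, hd⟩ := (Prime.dvd_finsetProd_iff hs.prime _).1 hd
    have hp' := Finset.mem_of_mem_erase hp
    have := (Nat.prime_dvd_prime_iff_eq hs (mem_prs.1 hp').2.1).1 hd
    exact (Finset.ne_of_mem_erase hp) this.symm
  rw [h0]

theorem sq_le_ex (k : ℕ) (hk : 8 ≤ k) : 2 * (k * k) ≤ 2 ^ 2 ^ (k - 4) := by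
  obtain ⟨u, rfl⟩ : ∃ u, k = u + 8 := ⟨k - 8, by omega⟩
  have e : u + 8 - 4 = u + 4 := by omega
  rw [e]
  have h1 : u + 1 ≤ 2 ^ u := Nat.lt_two_pow_self
  have h2 : u + 8 ≤ 8 * (u + 1) := by omega
  have h3 : 2 ^ (u + 4) = 2 ^ u * 16 := by rw [pow_add]; norm_num
  have h4 : 2 * u + 7 ≤ 2 ^ (u + 4) := by rw [h3]; omega
  calc 2 * ((u + 8) * (u + 8)) ≤ 2 * ((8 * (u + 1)) * (8 * (u + 1))) := by
        gcongr
    _ = 2 ^ 7 * ((u + 1) * (u + 1)) := by ring
    _ ≤ 2 ^ 7 * (2 ^ u * 2 ^ u) := by gcongr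
    _ = 2 ^ (2 * u + 7) := by rw [← pow_add, ← pow_add]; congr 1; omega
    _ ≤ 2 ^ 2 ^ (u + 4) := Nat.pow_le_pow_right (by norm_num) h4

theorem log_aj {j : ℕ} (hj : 3 ≤ j) (hc : 2 ^ j ≤ (prs 35 3 j).card) :
    Nat.log 2 (aj j) ≤ ex 2 ((prs 35 3 j).card - 4) := by
  set k := (prs 35 3 j).card with hk
  have h1 : aj j ≤ (4 ^ j) ^ k := Finset.prod_le_pow_card _ (fun p => p) _ fun p hp =>
    (mem_prs.1 hp).1
  have h2 : (4 ^ j) ^ k = 2 ^ (2 * (j * k)) := by
    rw [show (4 : ℕ) = 2 ^ 2 by norm_num, ← pow_mul, ← pow_mul]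
  rw [h2] at h1
  have h3 : Nat.log 2 (aj j) ≤ 2 * (j * k) := by
    calc Nat.log 2 (aj j) ≤ Nat.log 2 (2 ^ (2 * (j * k))) := Nat.log_mono_right h1
      _ = 2 * (j * k) := Nat.log_pow (by norm_num) _
  have h4 : j ≤ k := Nat.lt_two_pow_self.le.trans hc
  have h5 : 8 ≤ k := by
    calc 8 = 2 ^ 3 := by norm_num
      _ ≤ 2 ^ j := Nat.pow_le_pow_right (by norm_num) hj
      _ ≤ k := hc
  calc Nat.log 2 (aj j) ≤ 2 * (j * k) := h3
    _ ≤ 2 * (k * k) := by gcongr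
    _ ≤ 2 ^ 2 ^ (k - 4) := sq_le_ex k h5
    _ = ex 2 (k - 4) := by rw [ex_succ, ex_succ, ex_zero]

section
variable (G : GrpFacts) (hgen : S_gen) (hv : S_val) (hrk : S_rk) (hden : S_den) (ht5 : S_t5)
  (ht7 : S_t7) (hGA : S_GA) (hGB : S_GB) (h5s : S_T5s) (h7s : S_T7s) (h5c : S_T5c) (h7c : S_T7c)
  (hsound : S_sound) (hexist : S_exist)

include G hrk hden ht5 ht7 hGA hGB in
theorem chain_large' (M : ℕ → ℤ) (m T : ℕ) (h0 : ∀ i ≤ m, M i ≠ 0)
    (hx : ∀ i < m, Nx (M i) (M (i + 1)))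
    (hs : T + 4 ≤ (A5 (M 0)).card ∧ T + 4 ≤ (A7 (M 0)).card) :
    ∀ i ≤ m, ex i T + 4 ≤ (A5 (M i)).card ∧ ex i T + 4 ≤ (A7 (M i)).card := by
  intro i
  induction i with
  | zero =>
    intro _
    exact hs
  | succ i ih =>
    intro hi
    obtain ⟨ih5, ih7⟩ := ih (by omega)
    have hM := h0 i (by omega)
    have hM' := h0 (i + 1) hi
    obtain ⟨n5, n7⟩ := hx i (by omega)
    have h2M : 2 * M i ≠ 0 := mul_ne_zero two_ne_zero hM
    have h2M' : 2 * M (i + 1) ≠ 0 := mul_ne_zero two_ne_zero hM'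
    rw [ex_succ]
    constructor
    · have h1 := grow_GA G hrk hden ht5 hGA hM (A5 (M (i + 1))) (fun s hs hodd => by
        rw [mem_A5 hM']
        exact ⟨hs, dvd_of_lt hrk hs.1 h2M h2M' hodd.pos (n5 s hs hodd)⟩)
      exact tow_num h1 ih7
    · have h1 := grow_GB G hrk hden ht7 hGB hM (insert 2 (A7 (M (i + 1)))) (fun s hs hodd => by
        rw [Finset.mem_insert]
        by_cases h2 : s = 2
        · exact Or.inl h2
        · right
          rw [mem_A7 hM']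
          refine ⟨⟨hs, h2⟩, dvd_of_lt hrk hs.1 h2M h2M' ?_ (n7 s hs hodd)⟩
          exact Nat.pos_of_ne_zero (by rintro h; rw [h] at hodd; exact hodd (dvd_zero 3)))
      have h2 := Finset.card_insert_le 2 (A7 (M (i + 1)))
      exact tow_num (a := (A5 (M i)).card) (by omega) ih5

/-- the chain relation with a parameter -/
def ChA (m : ℕ) (a : ℚ) (s : ℕ → Fin 2 → ℚ) : Prop :=
  AR a (s 0 0) (s 0 1) ∧ ∀ i < m, StepR (s i 0) (s i 1) (s (i + 1) 0) (s (i + 1) 1)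

include G hgen hv hrk h5s h7s hsound in
theorem chA_sound {a : ℚ} (ha : a ≠ 0) (m : ℕ) (s : ℕ → Fin 2 → ℚ) (h : ChA m a s) :
    ∃ M : ℕ → ℤ, (∀ i ≤ m, M i ≠ 0 ∧ s i 0 = zz (M i) ∧ s i 1 = yy (M i)) ∧
      (∀ i < m, Nx (M i) (M (i + 1))) ∧ (∀ s, I5 s → padicValRat s a = 1 → (s : ℤ) ∣ 2 * M 0) ∧
      (∀ s, I7 s → padicValRat s a = 1 → (s : ℤ) ∣ 2 * M 0) := by
  induction m with
  | zero =>
    obtain ⟨M, h1, h2, h3, h4, h5⟩ := aR_sound G hgen hv hrk h5s h7s ha h.1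
    refine ⟨fun _ => M, fun i hi => ?_, fun i hi => absurd hi (by omega), h4, h5⟩
    obtain rfl : i = 0 := by omega
    exact ⟨h1, h2, h3⟩
  | succ m ih =>
    obtain ⟨M, h1, h2, h3, h3'⟩ := ih ⟨h.1, fun i hi => h.2 i (by omega)⟩
    have h4 := h.2 m (by omega)
    obtain ⟨ho, e1, e2⟩ := h1 m le_rfl
    rw [e1, e2] at h4
    obtain ⟨M', ho', e1', e2', hx⟩ := (stepR_iff G hgen ho _ _).1 h4
    have hx := hsound _ _ ho ho' hx
    refine ⟨fun i => if i ≤ m then M i else M', fun i hi => ?_, fun i hi => ?_, ?_, ?_⟩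
    · by_cases him : i ≤ m
      · simp only [if_pos him]; exact h1 i him
      · obtain rfl : i = m + 1 := by omega
        simp only [if_neg him]
        exact ⟨ho', e1', e2'⟩
    · by_cases him : i + 1 ≤ m
      · simp only [if_pos him, if_pos (show i ≤ m by omega)]
        exact h2 i (by omega)
      · obtain rfl : i = m := by omega
        simp only [if_neg him, if_pos le_rfl]
        exact hx
    · simpa using h3
    · simpa using h3'

include G hgen hv hrk h5c h7c hexist in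
theorem chA_exists {j : ℕ} (m : ℕ) : ∃ s, ChA m (aj j : ℚ) s := by
  obtain ⟨z, y, h⟩ := aR_complete G hgen hv hrk h5c h7c (aj_pos j) (fun s hs hd => by
    have hmem := (dvd_aj hs).1 hd
    have h3 := (mem_prs.1 hmem).2.2
    exact ⟨val_aj hs hmem, by rintro rfl; norm_num at h3, by rintro rfl; norm_num at h3⟩)
  obtain ⟨M₀, hM₀, rfl, rfl⟩ := (on_iff G hgen _ _).1 h.1
  have hstep : ∀ M : {M : ℤ // M ≠ 0}, ∃ M' : {M : ℤ // M ≠ 0}, StepT M.1 M'.1 := by
    rintro ⟨M, hM⟩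
    obtain ⟨M', h1, h2⟩ := hexist M hM
    exact ⟨⟨M', h1⟩, h2⟩
  choose f hf using hstep
  let g : ℕ → {M : ℤ // M ≠ 0} := fun i => Nat.rec ⟨M₀, hM₀⟩ (fun _ a => f a) i
  have hg : ∀ i, g (i + 1) = f (g i) := fun i => rfl
  refine ⟨fun i j => if j = 0 then zz (g i).1 else yy (g i).1, ?_, fun i _ => ?_⟩
  · simp only [if_true, one_ne_zero, if_false]
    exact h
  · simp only [if_true, one_ne_zero, if_false]
    refine (stepR_iff G hgen (g i).2 _ _).2 ⟨(g (i + 1)).1, (g (i + 1)).2, rfl, rfl, ?_⟩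
    have := hf (g i)
    rw [← hg] at this
    exact this

include G hgen hv hrk hden ht5 ht7 hGA hGB h5s h7s hsound in
/-- the last coordinate of a chain is huge -/
theorem chA_huge {j : ℕ} (hj : 3 ≤ j) (hc : 2 ^ j ≤ (prs 35 3 j).card) (m : ℕ)
    (x : ℕ → Fin 2 → ℚ) (hx : ChA (m + 2) (aj j : ℚ) x) :
    ex m (Nat.log 2 (aj j)) ≤ max (x (m + 2) 0).num.natAbs (x (m + 2) 0).den := by
  have ha : (aj j : ℚ) ≠ 0 := by exact_mod_cast (aj_pos j).ne'
  obtain ⟨M, h1, h2, h3, h4⟩ := chA_sound G hgen hv hrk h5s h7s hsound ha _ _ hx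
  set k := (prs 35 3 j).card with hk
  have hk8 : 8 ≤ k := by
    calc 8 = 2 ^ 3 := by norm_num
      _ ≤ 2 ^ j := Nat.pow_le_pow_right (by norm_num) hj
      _ ≤ k := hc
  have hM0 := (h1 0 (Nat.zero_le _)).1
  have hprops : ∀ s ∈ prs 35 3 j, s.Prime ∧ s ≠ 2 ∧ s % 5 = 3 ∧ s % 7 = 3 ∧
      padicValRat s (aj j : ℚ) = 1 := by
    intro s hs
    obtain ⟨-, hp, hm⟩ := mem_prs.1 hs
    refine ⟨hp, by rintro rfl; norm_num at hm, by omega, by omega, ?_⟩
    rw [padicValRat.of_nat, val_aj hp hs]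
    rfl
  have hstart : (k - 4) + 4 ≤ (A5 (M 0)).card ∧ (k - 4) + 4 ≤ (A7 (M 0)).card := by
    rw [Nat.sub_add_cancel (by omega)]
    constructor
    · apply Finset.card_le_card
      intro s hs
      obtain ⟨a1, a2, a3, a4, a5⟩ := hprops s hs
      have h5 : I5 s := ⟨a1, a2, Or.inr a3⟩
      exact (mem_A5 hM0 s).2 ⟨h5, h3 s h5 a5⟩
    · apply Finset.card_le_card
      intro s hs
      obtain ⟨a1, a2, a3, a4, a5⟩ := hprops s hs
      have h7 : I7 s := ⟨a1, Or.inr (Or.inl a4)⟩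
      exact (mem_A7 hM0 s).2 ⟨⟨h7, a2⟩, h4 s h7 a5⟩
  obtain ⟨-, h5⟩ := chain_large' G hrk hden ht5 ht7 hGA hGB M (m + 2) (k - 4)
    (fun i hi => (h1 i hi).1) h2 hstart (m + 2) le_rfl
  obtain ⟨ho, e1, -⟩ := h1 (m + 2) le_rfl
  rw [e1]
  refine le_trans ?_ (num_large G hrk hden ht5 hGA ho (ex_pos _ (by omega)) h5)
  rw [ex_add]
  exact ex_mono m (log_aj hj hc)

include G hgen hv hrk hden ht5 ht7 hGA hGB h5s h7s h5c h7c hsound hexist in
/-- Polynomial equations with a parameter, in a fixed number of variables, whose smallest rational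
solutions are iterated exponentials of the size of the parameter. -/
theorem tower_growth : ∃ (C : ℕ) (A : Set ℕ), A.Infinite ∧ ∀ m : ℕ,
    ∃ p : MvPolynomial (Fin (C * (m + 1) + 1)) ℤ,
      p.totalDegree ≤ 4 ∧ ∑ t ∈ p.support, |p.coeff t| ≤ C * (m + 1) ∧
      ∀ a ∈ A,
        (∃ x : Fin (C * (m + 1)) → ℚ,
          aeval (Fin.cons (a : ℚ) x : Fin (C * (m + 1) + 1) → ℚ) p = 0) ∧
        ∀ x : Fin (C * (m + 1)) → ℚ,
          aeval (Fin.cons (a : ℚ) x : Fin (C * (m + 1) + 1) → ℚ) p = 0 →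
            ∃ i, (fun k => 2 ^ k)^[m] (Nat.log 2 a) ≤ max (x i).num.natAbs (x i).den := by
  obtain ⟨r, B, hr⟩ := chain_poly_param dio_AR dio_step
  refine ⟨3 * (2 + r) + 3 * B.toNat, AA, infinite_AA, fun m => ?_⟩
  set C := 3 * (2 + r) + 3 * B.toNat with hC
  obtain ⟨p, hd, hl, hp⟩ := hr (m + 2)
  have hcard : Fintype.card (Fin (m + 2 + 1) × (Fin 2 ⊕ Fin r)) ≤
      Fintype.card (Fin (C * (m + 1))) := by
    simp only [Fintype.card_prod, Fintype.card_sum, Fintype.card_fin]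
    calc (m + 2 + 1) * (2 + r) ≤ (3 * (m + 1)) * (2 + r) := Nat.mul_le_mul_right _ (by omega)
      _ = (3 * (2 + r)) * (m + 1) := by ring
      _ ≤ C * (m + 1) := Nat.mul_le_mul_right _ (by omega)
  obtain ⟨e⟩ := Function.Embedding.nonempty_of_card_le hcard
  set ι : Option (Fin (m + 2 + 1) × (Fin 2 ⊕ Fin r)) → Fin (C * (m + 1) + 1) :=
    fun o => o.elim 0 (fun i => (e i).succ) with hι
  have hinj : Function.Injective ι := by
    intro x y hxy
    rcases x with _ | x <;> rcases y with _ | y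
    · rfl
    · exact absurd hxy (Fin.succ_ne_zero _).symm
    · exact absurd hxy (Fin.succ_ne_zero _)
    · have := Fin.succ_injective _ hxy
      rw [e.injective this]
  refine ⟨rename ι p, (totalDegree_rename_le _ _).trans hd, ?_, fun a ha => ?_⟩
  · change l1 (rename ι p) ≤ _
    refine (l1_rename _ _).trans (hl.trans ?_)
    have h1 : B ≤ B.toNat := Int.self_le_toNat B
    have h3 : (0 : ℤ) ≤ (B.toNat : ℤ) := by positivity
    have h4 : (0 : ℤ) ≤ ((m + 2 : ℕ) : ℤ) + 1 := by positivity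
    calc B * (((m + 2 : ℕ) : ℤ) + 1) ≤ B.toNat * (((m + 2 : ℕ) : ℤ) + 1) :=
          mul_le_mul_of_nonneg_right h1 h4
      _ ≤ B.toNat * (3 * ((m : ℤ) + 1)) := by
          apply mul_le_mul_of_nonneg_left _ h3
          push_cast; linarith
      _ = ((3 * B.toNat : ℕ) : ℤ) * (m + 1) := by push_cast; ring
      _ ≤ (C : ℤ) * (m + 1) := by
          apply mul_le_mul_of_nonneg_right _ (by positivity)
          have : 3 * B.toNat ≤ C := by omega
          exact_mod_cast this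
  obtain ⟨j, hj, hc, rfl⟩ := ha
  refine ⟨?_, ?_⟩
  · obtain ⟨s, hs⟩ := chA_exists G hgen hv hrk h5c h7c hexist (j := j) (m + 2)
    obtain ⟨y, hya, -, hy⟩ := (hp (aj j : ℚ) s).1 ⟨by simpa using hs.1, fun i hi => by
      simpa using hs.2 i hi⟩
    obtain ⟨z, hz⟩ := Function.Injective.surjective_comp_right (γ := ℚ) hinj y
    have hz0 : z 0 = aj j := by
      have : z (ι none) = y none := congrFun hz none
      rw [hya] at this
      exact this
    refine ⟨fun i => z i.succ, ?_⟩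
    have e2 : (Fin.cons (aj j : ℚ) (fun i : Fin (C * (m + 1)) => z i.succ) :
        Fin (C * (m + 1) + 1) → ℚ) = z := by
      funext i
      refine Fin.cases ?_ (fun i => ?_) i
      · simp [hz0]
      · simp
    rw [e2, aeval_rename]
    have hz' : z ∘ ι = y := hz
    rw [hz', hy]
  · intro x hx
    rw [aeval_rename] at hx
    set v : Fin (C * (m + 1) + 1) → ℚ := Fin.cons (aj j : ℚ) x with hv'
    set s : ℕ → Fin 2 → ℚ := fun i j => if h : i < m + 2 + 1 then x (e (⟨i, h⟩, Sum.inl j)) else 0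
      with hs
    have hch := (hp (aj j : ℚ) s).2 ⟨v ∘ ι, rfl, fun i j => by
      simp only [Function.comp, hs, dif_pos i.2]
      change v (e (i, Sum.inl j)).succ = _
      rw [hv', Fin.cons_succ], hx⟩
    have hch' : ChA (m + 2) (aj j : ℚ) s :=
      ⟨by simpa using hch.1, fun i hi => by simpa using hch.2 i hi⟩
    have h1 := chA_huge G hgen hv hrk hden ht5 ht7 hGA hGB h5s h7s hsound hj hc m s hch'
    have h9 : s (m + 2) 0 = x (e (⟨m + 2, by omega⟩, Sum.inl 0)) := by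
      simp only [hs, dif_pos (show m + 2 < m + 2 + 1 by omega)]
    refine ⟨e (⟨m + 2, by omega⟩, Sum.inl 0), ?_⟩
    rw [← h9]
    exact h1

end

end Pool.Agent.TH716.TW
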